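import Pool.Agent.H45.REC.Tcg
import Pool.Agent.H45.EXA.ExvA
import Pool.Agent.H29.REC.Num

/-!
# The numbers of a recorded class and the numbers of the labels in tubes

`vst_tub`: in a class of zooms (window, tube, visible variable) with a greedy order and exactness,
the numbers of the closed labels, in units of the family, are at most the numbers of the labels in
tubes of the class, if the visible variable of the zoom and the digits of the velocities are a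
function of the visible variable of the tubes.
-/

set_option autoImplicit false

namespace Pool.GRW

open Finset Real MvPolynomial
open Pool.Agent.H49.Ent Pool.Agent.H32.Dense Pool.STK Pool.BFL Pool.KA Pool.KSAT Pool.K2S Pool.PB
open Pool.GEN Pool.S6C Pool.REX
open Pool.RTS (Vis TNum TuB TCh)

variable {m n J : ℕ}

/-- Statements about all parts with bounded losses. -/
theorem bas_fac {S : PCl m} {Φ : Stat m} (h : Bas S Φ) (D : ℝ) :
    Bas S (fun J F A => ∀ B : F.Ω → Prop, Sub B A → Pe F.p A ≤ D * Pe F.p B → Φ J F B) := by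
  obtain ⟨τ, hτ, J₁, h⟩ := h
  obtain ⟨D', hD'⟩ : ∃ D', D' = max D 1 := ⟨_, rfl⟩
  have hD1 : 1 ≤ D' := by rw [hD']; exact le_max_right _ _
  have hD0 : D ≤ D' := by rw [hD']; exact le_max_left _ _
  obtain ⟨J₂, hJ₂⟩ := exists_nat_ge (Real.log D' / (τ / 2))
  refine ⟨τ / 2, half_pos hτ, max J₁ J₂, fun J hJ F A hA B hB hP =>
    h J ((le_max_left _ _).trans hJ) F B ?_⟩
  have h2 : Real.exp (-(τ / 2 * J)) * Pe F.p A ≤ Pe F.p B := by
    have h3 : (J₂ : ℝ) ≤ J := by exact_mod_cast (le_max_right _ _).trans hJ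
    have h4 : Real.log D' ≤ τ / 2 * J := by
      have h5 := hJ₂.trans h3
      rw [div_le_iff₀ (by linarith)] at h5
      linarith
    have h6 : D' ≤ Real.exp (τ / 2 * J) := by
      calc D' = Real.exp (Real.log D') := (Real.exp_log (by linarith)).symm
        _ ≤ _ := Real.exp_le_exp.2 h4
    have hB0 := Pe_nonneg F.isLaw B
    rw [Real.exp_neg, inv_mul_le_iff₀ (Real.exp_pos _)]
    calc Pe F.p A ≤ D * Pe F.p B := hP
      _ ≤ D' * Pe F.p B := mul_le_mul_of_nonneg_right hD0 hB0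
      _ ≤ _ := mul_le_mul_of_nonneg_right h6 hB0
  have h1 := S.res (half_pos hτ).le hA hB h2
  rwa [add_halves] at h1

/-! ### The families whose zooms are in a class -/

section

variable {S : PCl m} {v : Vz m} {ε : Fin n → Fin m} {S' : PCl n}

/-- Statements about the class. -/
theorem bas_pul1 {Φ : Stat m} (h : Bas S Φ) : Bas (pulV S v ε S') Φ :=
  h.sub fun _ _ _ _ (h1 : (pulV S v ε S').St _ _ _ _) => h1.1

/-- Statements about the class of the zooms. -/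
theorem bas_pul2 {Φ : Stat n} (h : Bas S' Φ) : Bas (pulV S v ε S') (fun J F A =>
    ∀ hP : v.P J ≤ J - v.B J, Φ (v.R J) (v.famV ε F hP) A) := by
  obtain ⟨τ, hτ, J₁, h⟩ := h
  have hb1 := v.b1
  have hp1 := v.p1
  have hc : 0 < (1 - v.b) * (1 - v.p) := mul_pos (by linarith) (by linarith)
  obtain ⟨J₂, hJ₂⟩ := exists_nat_ge (1 / ((1 - v.b) * (1 - v.p)) * J₁)
  refine ⟨(1 - v.b) * (1 - v.p) * τ, by positivity, J₂, fun J hJ F A hA hP => ?_⟩
  refine h (v.R J) ?_ (v.famV ε F hP) A ?_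
  · have h3 := (v.floor_le J).2.2
    have h4 : (J₂ : ℝ) ≤ J := by exact_mod_cast hJ
    have h5 : 1 / ((1 - v.b) * (1 - v.p)) * (J₁ : ℝ) ≤ 1 / ((1 - v.b) * (1 - v.p)) * v.R J := by
      linarith
    have h6 : (J₁ : ℝ) ≤ v.R J := le_of_mul_le_mul_left h5 (by positivity)
    exact_mod_cast h6
  · have h1 := hA.2 hP
    have e1 : 1 / ((1 - v.b) * (1 - v.p)) * ((1 - v.b) * (1 - v.p) * τ) = τ := by
      rw [← mul_assoc, one_div, inv_mul_cancel₀ hc.ne', one_mul]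
    rwa [e1] at h1

/-- The class is nonempty. -/
theorem pulV_ne (hne : S'.Ne) (hsub : ∀ (τ : ℝ) (J : ℕ) (F : Fam n J) (A : F.Ω → Prop),
    S'.St τ J F A → (RecV S v ε).St τ J F A) : (pulV S v ε S').Ne := by
  intro τ hτ J₁
  obtain ⟨J, hJ, F, A, hA⟩ := hne τ hτ J₁
  have h1 := hsub τ J F A hA
  have hb0 := v.b0
  have hb1 := v.b1
  have hp0 := v.p0
  have hp1 := v.p1
  have hc : 0 < (1 - v.b) * (1 - v.p) := mul_pos (by linarith) (by linarith)
  have hc1 : (1 - v.b) * (1 - v.p) ≤ 1 := mul_le_one₀ (by linarith) (by linarith) (by linarith)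
  have key := recV_cases (S := S) (v := v) (ε := ε) (τ := τ) (Φ := fun J' G A' =>
    J₁ ≤ J' → S'.St τ J' G A' → ∃ J, J₁ ≤ J ∧ ∃ (F : Fam m J) (A : F.Ω → Prop),
      (pulV S v ε S').St τ J F A) (by
    intro J F A hP hS hJ' hS'
    refine ⟨J, hJ'.trans ?_, F, A, hS, fun h3 => S'.mono ?_ hS'⟩
    · unfold Vz.R
      omega
    · rw [one_div, ← div_eq_inv_mul, le_div_iff₀ hc]
      nlinarith) h1
  exact key hJ hA

end

/-! ### Units -/

theorem sc_units (v : Vz m) (J : ℕ) {s : ℝ} (hs0 : 0 ≤ s) (hs1 : s ≤ 1) :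
    v.sc s * J - 2 ≤ v.B J + v.P J + s * v.R J ∧
      (v.B J : ℝ) + v.P J + s * v.R J ≤ v.sc s * J + 1 ∧
      (v.B J : ℝ) + s * v.R J ≤ v.tm s * J + 1 ∧ (1 - v.b) * (1 - v.p) * J ≤ v.R J ∧
      (v.B J : ℝ) + v.P J + v.R J = J := by
  obtain ⟨h1, h2, h3⟩ := v.floor_le J
  have hb0 := v.b0
  have hb1 := v.b1
  have hp0 := v.p0
  have hp1 := v.p1
  have hJ : (0 : ℝ) ≤ J := Nat.cast_nonneg J
  have e3 : ((J - v.B J : ℕ) : ℝ) = J - v.B J := by rw [Nat.cast_sub h1]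
  have e4 : (v.R J : ℝ) = J - v.B J - v.P J := by
    unfold Vz.R
    rw [Nat.cast_sub h2, e3]
  have b1 : (v.B J : ℝ) ≤ v.b * J := Nat.floor_le (by positivity)
  have b2 : v.b * J < v.B J + 1 := Nat.lt_floor_add_one _
  have p1 : (v.P J : ℝ) ≤ v.p * (J - v.B J) := by
    have h4 : (v.P J : ℝ) ≤ v.p * ((J - v.B J : ℕ) : ℝ) := Nat.floor_le (by positivity)
    rwa [e3] at h4
  have p2 : v.p * (J - v.B J) < v.P J + 1 := by
    have h4 : v.p * ((J - v.B J : ℕ) : ℝ) < v.P J + 1 := Nat.lt_floor_add_one _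
    rwa [e3] at h4
  have hc : 0 < (1 - v.b) * (1 - v.p) := mul_pos (by linarith) (by linarith)
  have q1 : v.p * (v.b * J - v.B J) ≤ v.p := by
    have : v.b * (J : ℝ) - v.B J ≤ 1 := by linarith
    nlinarith
  have q2 : 0 ≤ v.p * (v.b * J - v.B J) := mul_nonneg hp0 (by linarith)
  -- the sum of the two depths
  have u1 : (v.b + v.p * (1 - v.b)) * J - 2 ≤ v.B J + v.P J := by nlinarith
  have u2 : (v.B J : ℝ) + v.P J ≤ (v.b + v.p * (1 - v.b)) * J + 1 := by nlinarith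
  have u3 : (1 - v.b) * (1 - v.p) * J ≤ v.R J := by
    rw [one_div, ← div_eq_inv_mul, le_div_iff₀ hc] at h3
    linarith
  refine ⟨?_, ?_, ?_, u3, by rw [e4]; ring⟩
  · have e5 : (v.B J : ℝ) + v.P J + s * v.R J = (1 - s) * (v.B J + v.P J) + s * J := by
      rw [e4]
      ring
    have e6 : v.sc s * J = (1 - s) * ((v.b + v.p * (1 - v.b)) * J) + s * J := by
      unfold Vz.sc
      ring
    rw [e5, e6]
    nlinarith [mul_le_mul_of_nonneg_left u1 (by linarith : (0 : ℝ) ≤ 1 - s)]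
  · have e5 : (v.B J : ℝ) + v.P J + s * v.R J = (1 - s) * (v.B J + v.P J) + s * J := by
      rw [e4]
      ring
    have e6 : v.sc s * J = (1 - s) * ((v.b + v.p * (1 - v.b)) * J) + s * J := by
      unfold Vz.sc
      ring
    rw [e5, e6]
    nlinarith [mul_le_mul_of_nonneg_left u2 (by linarith : (0 : ℝ) ≤ 1 - s)]
  · have e5 : (v.B J : ℝ) + s * v.R J = (1 - s) * v.B J + s * J - s * v.P J := by
      rw [e4]
      ring
    have e6 : v.tm s * J = (1 - s) * (v.b * J) + s * J - s * (v.p * (J - v.b * J)) := by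
      unfold Vz.tm
      ring
    have e7 : v.p * ((J : ℝ) - v.b * J) - 1 ≤ v.P J := by nlinarith
    rw [e5, e6]
    nlinarith [mul_le_mul_of_nonneg_left b1 (by linarith : (0 : ℝ) ≤ 1 - s),
      mul_le_mul_of_nonneg_left e7 hs0]

theorem big {a : ℝ} (ha : 0 < a) (M : ℝ) : ∃ J₀ : ℕ, ∀ J ≥ J₀, M ≤ a * (J : ℝ) := by
  obtain ⟨J₀, hJ₀⟩ := exists_nat_ge (M / a)
  refine ⟨J₀, fun J hJ => ?_⟩
  have h1 : (J₀ : ℝ) ≤ J := by exact_mod_cast hJ
  have h2 := hJ₀.trans h1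
  rw [div_le_iff₀ ha] at h2
  linarith

theorem exists_low (r : ℕ) {d : ℕ → ℝ} (h : ∀ i < r, 0 < d i) : ∃ x : ℝ, 0 < x ∧ ∀ i < r, x ≤ d i := by
  induction r with
  | zero => exact ⟨1, one_pos, fun i hi => absurd hi (Nat.not_lt_zero i)⟩
  | succ r ih =>
    obtain ⟨x, h1, h2⟩ := ih fun i hi => h i (by omega)
    refine ⟨min x (d r), lt_min h1 (h r (by omega)), fun i hi => ?_⟩
    rcases Nat.lt_or_ge i r with h3 | h3
    · exact (min_le_left _ _).trans (h2 i h3)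
    · rw [show i = r by omega]
      exact min_le_right _ _

theorem pw1 {g e r n : ℕ} (h : g + e + (n + 2) ≤ r) (hg : 1 ≤ g) :
    (1 : ℝ) / 2 ^ r + 1 / 2 ^ g + 2 ^ e * ((n + 1) * (1 / 2 ^ r)) ≤ 1 / 2 ^ (g - 1) := by
  obtain ⟨k, rfl⟩ : ∃ k, r = g + e + (n + 2) + k := ⟨r - (g + e + (n + 2)), by omega⟩
  obtain ⟨g₁, rfl⟩ : ∃ g₁, g = g₁ + 1 := ⟨g - 1, by omega⟩
  rw [Nat.add_sub_cancel]
  have a1 : (1 : ℝ) ≤ 2 ^ e := one_le_pow₀ (by norm_num)
  have a2 : (1 : ℝ) ≤ 2 ^ k := one_le_pow₀ (by norm_num)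
  have a3 : ((n : ℝ) + 2) ≤ 2 ^ (n + 2) := by exact_mod_cast (Nat.lt_two_pow_self (n := n + 2)).le
  have pe : (0 : ℝ) < 2 ^ e := by positivity
  have pk : (0 : ℝ) < 2 ^ k := by positivity
  have pn : (0 : ℝ) < 2 ^ (n + 2) := by positivity
  have pg : (0 : ℝ) < 2 ^ g₁ := by positivity
  have e1 : (2 : ℝ) ^ (g₁ + 1 + e + (n + 2) + k) = 2 * 2 ^ g₁ * 2 ^ e * 2 ^ (n + 2) * 2 ^ k := by
    rw [pow_add, pow_add, pow_add, pow_succ]
    ring
  rw [e1, show (2 : ℝ) ^ (g₁ + 1) = 2 ^ g₁ * 2 from pow_succ _ _]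
  have e2 : (1 : ℝ) / (2 * 2 ^ g₁ * 2 ^ e * 2 ^ (n + 2) * 2 ^ k) + 1 / (2 ^ g₁ * 2) +
      2 ^ e * ((n + 1) * (1 / (2 * 2 ^ g₁ * 2 ^ e * 2 ^ (n + 2) * 2 ^ k))) =
      (1 + 2 ^ e * 2 ^ (n + 2) * 2 ^ k + 2 ^ e * (n + 1)) /
        (2 * 2 ^ g₁ * 2 ^ e * 2 ^ (n + 2) * 2 ^ k) := by
    field_simp
  rw [e2, div_le_div_iff₀ (by positivity) pg]
  have e3 : (1 : ℝ) + 2 ^ e * (n + 1) ≤ 2 ^ e * 2 ^ (n + 2) * 2 ^ k := by
    calc (1 : ℝ) + 2 ^ e * (n + 1) ≤ 2 ^ e * (n + 2) := by nlinarith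
      _ ≤ 2 ^ e * 2 ^ (n + 2) := mul_le_mul_of_nonneg_left a3 pe.le
      _ ≤ 2 ^ e * 2 ^ (n + 2) * 2 ^ k := le_mul_of_one_le_right (by positivity) a2
  nlinarith

theorem pw2 {g e r n : ℕ} (h : g + e ≤ r) (hg : n + 3 ≤ g) :
    (1 : ℝ) / 2 ^ r + 1 / 2 ^ g + 2 ^ e * ((n + 1) * (1 / 2 ^ r)) ≤ 1 / 2 ^ (g - (n + 3)) := by
  obtain ⟨k, rfl⟩ : ∃ k, r = g + e + k := ⟨r - (g + e), by omega⟩
  obtain ⟨g₁, rfl⟩ : ∃ g₁, g = g₁ + (n + 3) := ⟨g - (n + 3), by omega⟩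
  rw [Nat.add_sub_cancel]
  have a1 : (1 : ℝ) ≤ 2 ^ e := one_le_pow₀ (by norm_num)
  have a2 : (1 : ℝ) ≤ 2 ^ k := one_le_pow₀ (by norm_num)
  have a3 : ((n : ℝ) + 3) ≤ 2 ^ (n + 3) := by exact_mod_cast (Nat.lt_two_pow_self (n := n + 3)).le
  have pe : (0 : ℝ) < 2 ^ e := by positivity
  have pk : (0 : ℝ) < 2 ^ k := by positivity
  have pn : (0 : ℝ) < 2 ^ (n + 3) := by positivity
  have pg : (0 : ℝ) < 2 ^ g₁ := by positivity
  have e1 : (2 : ℝ) ^ (g₁ + (n + 3) + e + k) = 2 ^ g₁ * 2 ^ (n + 3) * 2 ^ e * 2 ^ k := by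
    rw [pow_add, pow_add, pow_add]
  rw [e1, show (2 : ℝ) ^ (g₁ + (n + 3)) = 2 ^ g₁ * 2 ^ (n + 3) from pow_add _ _ _]
  have e2 : (1 : ℝ) / (2 ^ g₁ * 2 ^ (n + 3) * 2 ^ e * 2 ^ k) + 1 / (2 ^ g₁ * 2 ^ (n + 3)) +
      2 ^ e * ((n + 1) * (1 / (2 ^ g₁ * 2 ^ (n + 3) * 2 ^ e * 2 ^ k))) =
      (1 + 2 ^ e * 2 ^ k + 2 ^ e * (n + 1)) / (2 ^ g₁ * 2 ^ (n + 3) * 2 ^ e * 2 ^ k) := by
    field_simp
  rw [e2, div_le_div_iff₀ (by positivity) pg]
  have e3 : (1 : ℝ) + 2 ^ e * 2 ^ k + 2 ^ e * (n + 1) ≤ 2 ^ (n + 3) * 2 ^ e * 2 ^ k := by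
    have h1 : (1 : ℝ) ≤ 2 ^ e * 2 ^ k := one_le_mul_of_one_le_of_one_le a1 a2
    have h2 : (2 : ℝ) ^ e * (n + 1) ≤ 2 ^ e * 2 ^ k * (n + 1) := by
      refine mul_le_mul_of_nonneg_right ?_ (by positivity)
      exact le_mul_of_one_le_right pe.le a2
    have h3 : 2 ^ e * 2 ^ k * ((n : ℝ) + 3) ≤ 2 ^ e * 2 ^ k * 2 ^ (n + 3) :=
      mul_le_mul_of_nonneg_left a3 (by positivity)
    linarith
  nlinarith

/-! ### The comparison -/

open Pool.CHB (ChN.cnd_mono)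
open Pool.CHT

/-- **The numbers of a recorded class are at most the numbers of the labels in tubes.** -/
theorem vst_tub {S : PCl m} {C₀ : ℝ} (hC₀ : 0 ≤ C₀) (htm : TmC S C₀) {v : Vz m}
    {ε : Fin n → Fin m} (hε : Function.Injective ε) {S' : PCl n} (hne : S'.Ne)
    (hsub : ∀ (τ : ℝ) (J : ℕ) (F : Fam n J) (A : F.Ω → Prop), S'.St τ J F A →
      (RecV S v ε).St τ J F A)
    {L : Finset (Fin n) → Fin n → ℝ → ℝ → ℝ} (hL : LamW S' L) {σ : Fin n → Fin n}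
    (hσ : Function.Injective σ) {c : ℕ → Fin n} (hcσ : ∀ i : Fin n, c i = σ i) {w : ℝ}
    (hw : w ∈ Wv L σ) (hex : VExa S' L σ w) {j k : ℕ} (hjk : j ≤ k) (hk : k < n)
    {b₀ : ℝ} {V : Vis m} {β : List (Fin m) × Fin m → ℝ → ℝ → ℝ} {R : ℝ → ℝ → ℝ}
    (hR : TNum (TuB b₀ V β ((List.range j).map fun l => ε (c l), ε (c k))) S R)
    {x y : ℝ} (hx : v.tm w < x) (hbx : b₀ ≤ x) (hy : 0 ≤ y) (hxy : x + y ≤ 1)
    (hV : ∃ J₀ : ℕ, ∀ J ≥ J₀, ∀ F : Fam m J, ∃ φ : V.κ J F → v.κ J F × (Fin n → ℤ),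
      ∀ ω, ydg F (v.y J F) ε (v.P J) ω = φ (V.z ⌊x * J⌋₊ ⌊y * J⌋₊ J F ω))
    (hside : ∀ l < j, v.sc (vs L σ w (l + 1)) ≤
      β ((List.range l).map fun l => ε (c l), ε (c l)) (x + y) x)
    {w₁ q₁ : ℝ} (hw₁ : x < w₁) (hq₁ : y < q₁) (hw₁' : w₁ ≤ 1) (hq₁' : q₁ ≤ 1) :
    v.sc (vs L σ w (j + 1)) ≤ R w₁ q₁ := by
  classical
  obtain ⟨hw0, hw1, hg, hct⟩ := hw
  have hb0 := v.b0
  have hb1 := v.b1
  have hp0 := v.p0
  have hp1 := v.p1
  obtain ⟨γ, hγ⟩ : ∃ γ, γ = (1 - v.b) * (1 - v.p) := ⟨_, rfl⟩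
  have hγ0 : 0 < γ := by rw [hγ]; exact mul_pos (by linarith) (by linarith)
  have hγ1 : γ ≤ 1 := by
    rw [hγ]
    exact mul_le_one₀ (by linarith) (by linarith) (by linarith)
  have hsc : ∀ {s s' : ℝ}, s ≤ s' → v.sc s ≤ v.sc s' := by
    intro s s' h
    unfold Vz.sc
    have : (1 - v.b) * (1 - v.p) * s ≤ (1 - v.b) * (1 - v.p) * s' := by
      rw [← hγ]
      exact mul_le_mul_of_nonneg_left h hγ0.le
    nlinarith
  have hsc1 : v.sc 1 = 1 := by unfold Vz.sc; ring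
  have htm' : TmC S' (C₀ * (1 / γ)) := by
    intro τ J F A hτ hA
    rw [hγ]
    exact recV_tm hC₀ htm v ε τ J F A hτ (hsub τ J F A hA)
  have hpos : Bas S' (fun _ F A => 0 < Pe F.p A) :=
    ⟨1, one_pos, 0, fun J _ F A hA => (htm' 1 J F A one_pos hA).1⟩
  by_contra hcon
  push Not at hcon
  obtain ⟨w₂, hw₂a, hw₂b⟩ := exists_rat_btwn hw₁
  obtain ⟨q₂, hq₂a, hq₂b⟩ := exists_rat_btwn hq₁
  obtain ⟨p, hp⟩ : ∃ p, p = R w₂ q₂ := ⟨_, rfl⟩
  have hp1' : p ≤ R w₁ q₁ := by rw [hp]; exact hR.mono hw₂b.le hq₂b.le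
  obtain ⟨h, hh⟩ : ∃ h, h = (v.sc (vs L σ w (j + 1)) - p) / 2 := ⟨_, rfl⟩
  have hh0 : 0 < h := by rw [hh]; linarith
  have hs1 : ∀ l, vs L σ w l ≤ 1 := vs_le1 hL σ hw1.le
  have hs0 : ∀ l, w ≤ vs L σ w l := le_vs hL σ hw1.le
  have hmono := Vgr.mono hL hw1.le hg
  have hscj1 : v.sc (vs L σ w (j + 1)) ≤ 1 := by
    rw [← hsc1]
    exact hsc (hs1 _)
  have hph : p + h ≤ 1 := by rw [hh]; linarith
  obtain ⟨δ, hδ⟩ : ∃ δ, δ = min (h / 2) (w / 2) := ⟨_, rfl⟩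
  have hδ0 : 0 < δ := by rw [hδ]; exact lt_min (by linarith) (by linarith)
  have hδh : δ ≤ h / 2 := by rw [hδ]; exact min_le_left _ _
  have hδw : δ ≤ w / 2 := by rw [hδ]; exact min_le_right _ _
  obtain ⟨jj, hjj, hlt, heq⟩ := fst_one (fun l => vs L σ w (l + 1)) (fun l => hs1 _) j
  obtain ⟨c'', hc''⟩ : ∃ c'', c'' = Function.update c j (c k) := ⟨_, rfl⟩
  have hcj : c'' j = c k := by rw [hc'']; exact Function.update_self _ _ _
  have hcl : ∀ l, l ≠ j → c'' l = c l := fun l hl => by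
    rw [hc'']
    exact Function.update_of_ne hl _ _
  obtain ⟨b, hb⟩ : ∃ b : ℕ → ℕ, b = fun i => min i jj := ⟨_, rfl⟩
  have hb1' : ∀ i, b i ≤ i := fun i => by rw [hb]; exact min_le_left _ _
  have hb2 : ∀ i, b i ≤ jj := fun i => by rw [hb]; exact min_le_right _ _
  have hb3 : ∀ l < jj, b l = l := fun l hl => by rw [hb]; exact min_eq_left hl.le
  obtain ⟨s, hs⟩ : ∃ s : ℕ → ℝ, s = fun i => vs L σ w (b i + 1) := ⟨_, rfl⟩
  have hsl : ∀ l < jj, s l = vs L σ w (l + 1) := fun l hl => by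
    rw [hs]
    simp only
    rw [hb3 l hl]
  have hinj : ∀ {x y : ℕ}, x < n → y < n → c x = c y → x = y := by
    intro x y hx hy hxy
    have h1 := hcσ ⟨x, hx⟩
    have h2 := hcσ ⟨y, hy⟩
    simp only at h1 h2
    rw [h1, h2] at hxy
    exact congrArg Fin.val (hσ hxy)
  obtain ⟨K, d, hKd, hB⟩ := chn_box (S := S') (c := c'') (r := j + 1) (w := w) (s := s) (b := b)
    (fun x hx y hy hxy => by
      have hx' : x < j + 1 := hx
      have hy' : y < j + 1 := hy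
      by_cases hxj : x = j
      · by_cases hyj : y = j
        · omega
        · rw [hxj, hcj, hcl y hyj] at hxy
          have := hinj hk (by omega) hxy
          omega
      · by_cases hyj : y = j
        · rw [hyj, hcj, hcl x hxj] at hxy
          have := hinj (by omega) hk hxy
          omega
        · rw [hcl x hxj, hcl y hyj] at hxy
          exact hinj (by omega) (by omega) hxy)
    (TmC.wn htm' w) hw0.le hw1 hb1' (fun i _ => by rw [hs]; exact hw0.le.trans (hs0 _))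
    (fun i _ l hl => by
      have hl' : l < jj := hl.trans_le (hb2 i)
      rw [hsl l hl']
      exact hlt l hl')
    (fun ρ hρ => by
      refine (vst_crd hpos hL hcσ hw0 hw1 hg hct hex hρ).mono 0 ?_
      intro J _ F A h1 V z z' hz i _ l hl
      have hl' : l < jj := hl.trans_le (hb2 i)
      have h2 := h1 V z z' hz l (by omega)
      rw [hsl l hl', hcl l (by omega)]
      have h3 : (fun ω => ((fun l' : Fin l => F.X J ω (c'' l')), z' (slam F ⌊w * J⌋₊ ω), F.W ω)) =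
          fun ω => ((fun l' : Fin l => F.X J ω (c l')), z' (slam F ⌊w * J⌋₊ ω), F.W ω) := by
        funext ω
        congr 1
        funext l'
        rw [hcl l' (by omega)]
      rw [h3]
      exact h2)
    (rd := fun i => vs L σ w (b i))
    (fun i hi e he => by
      have hbn : b i < n := by have := hb1' i; omega
      have him : (range (b i)).image c'' = (Iio (⟨b i, hbn⟩ : Fin n)).image σ := by
        rw [img_eq hcσ ⟨b i, hbn⟩]
        refine Finset.image_congr fun l hl => ?_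
        have hl' : l < b i := by simpa using hl
        exact hcl l (by have := hb2 i; omega)
      obtain ⟨k', hk', hbk, hck⟩ : ∃ k' : ℕ, ∃ hk' : k' < n, b i ≤ k' ∧ c'' i = σ ⟨k', hk'⟩ := by
        by_cases hij : i = j
        · refine ⟨k, hk, ?_, ?_⟩
          · have := hb1' i
            omega
          · rw [hij, hcj]
            exact hcσ ⟨k, hk⟩
        · refine ⟨i, by omega, hb1' i, ?_⟩
          rw [hcl i hij]
          exact hcσ ⟨i, by omega⟩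
      obtain ⟨K, hK⟩ := vst_att1 hL hw0 hw1 hg hct (b i) ⟨b i, hbn⟩ rfl ⟨k', hk'⟩
        (by rw [Fin.le_def]; exact hbk) e he
      refine ⟨K, hK.mono 0 fun J _ F A h1 => ?_⟩
      rw [him, hck, hs]
      exact h1)
    (φ := fun _ => 1) (fun _ => one_pos) hδ0
  obtain ⟨dm, hdm0, hdm⟩ := exists_low (j + 1) fun i hi => (hKd i hi).1
  obtain ⟨dd, hdd⟩ : ∃ dd, dd = γ * dm / 2 := ⟨_, rfl⟩
  have hdd0 : 0 < dd := by rw [hdd]; positivity
  obtain ⟨c₀, hc₀⟩ : ∃ c₀ : ℕ, c₀ = n + 3 := ⟨_, rfl⟩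
  have hno := bas_fac (hR.no_ch (fun i => K i + 1) w₂ q₂ (h := h) (d := dd)
    (by exact_mod_cast (hw₂b.le.trans hw₁')) (by exact_mod_cast (hq₂b.le.trans hq₁')) hh0 hdd0
    (by rw [← hp]; exact hph)) (2 * (7 ^ m * 7 ^ n * 99 ^ n))
  have hpul := (bas_pul1 (v := v) (ε := ε) (S' := S') hno).and (bas_pul2 (S := S) (v := v)
    (ε := ε) hB)
  have htm0 : 0 ≤ v.tm w := by
    unfold Vz.tm
    rw [← hγ]
    positivity
  have hx0 : 0 ≤ x := htm0.trans hx.le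
  have hx1 : x ≤ 1 := by linarith
  obtain ⟨χ, hχ0, hχ⟩ := exists_low jj (d := fun l => 1 - vs L σ w (l + 1))
    fun l hl => by have := hlt l hl; linarith
  obtain ⟨J₁, hJ₁⟩ := big (a := γ * (1 - w)) (mul_pos hγ0 (by linarith)) 1
  obtain ⟨J₂, hJ₂⟩ := big (a := x - v.tm w) (by linarith) 3
  obtain ⟨J₃, hJ₃⟩ := big (a := γ * χ) (mul_pos hγ0 hχ0) (n + 2)
  obtain ⟨J₄, hJ₄⟩ := big (a := γ * (w / 2)) (mul_pos hγ0 (by linarith)) (c₀ + 1)
  obtain ⟨J₅, hJ₅⟩ := big (a := γ * dm / 2) (by positivity) 1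
  obtain ⟨J₆, hJ₆⟩ := big (a := h / 2) (by linarith) (4 + c₀)
  obtain ⟨J₇, hJ₇⟩ := hV
  refine Clp.not_false (pulV_ne (S := S) (v := v) (ε := ε) hne hsub)
    (Bas.clp (hpul.mono (J₁ + J₂ + J₃ + J₄ + J₅ + J₆ + J₇) ?_))
  rintro J hJ F A ⟨h1, h2⟩
  obtain ⟨k1, k2, -⟩ := v.floor_le J
  obtain ⟨B', hBA, hPe, W, z, z', G, hClC⟩ := h2 k2
  have hJ0 : (0 : ℝ) ≤ J := Nat.cast_nonneg J
  have e1 := hJ₁ J (by omega)
  have e2 := hJ₂ J (by omega)
  have e3 := hJ₃ J (by omega)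
  have e4 := hJ₄ J (by omega)
  have e5 := hJ₅ J (by omega)
  have e6 := hJ₆ J (by omega)
  obtain ⟨φ, hφ⟩ := hJ₇ J (by omega) F
  have hR0' : (0 : ℝ) ≤ (v.R J : ℕ) := Nat.cast_nonneg _
  have hRJ : γ * J ≤ v.R J := by
    rw [hγ]
    exact (sc_units v J zero_le_one le_rfl).2.2.2.1
  have hRJ' : (v.B J : ℝ) + v.P J + v.R J = J := by
    exact (sc_units v J zero_le_one le_rfl).2.2.2.2
  have hRle : (v.R J : ℝ) ≤ J := by
    have : (0 : ℝ) ≤ v.B J := Nat.cast_nonneg _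
    have : (0 : ℝ) ≤ v.P J := Nat.cast_nonneg _
    linarith
  have hsw : ∀ i, w ≤ s i := fun i => by rw [hs]; exact hs0 _
  have hs1' : ∀ i, s i ≤ 1 := fun i => by rw [hs]; exact hs1 _
  -- the precisions in the zoom
  obtain ⟨gz, hgz⟩ : ∃ gz : ℕ → ℕ, gz = fun i => ⌊(s i - d i) * (v.R J : ℝ)⌋₊ := ⟨_, rfl⟩
  have hd0 : ∀ i < j + 1, 0 < d i ∧ d i ≤ δ := fun i hi => ⟨(hKd i hi).1, (hKd i hi).2.1⟩
  have hgz1 : ∀ i < j + 1, (gz i : ℝ) ≤ (s i - d i) * v.R J := fun i hi => by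
    rw [hgz]
    refine Nat.floor_le (mul_nonneg ?_ hR0')
    have := hsw i
    have := (hd0 i hi).2
    linarith
  have hgz2 : ∀ i, (s i - d i) * v.R J < gz i + 1 := fun i => by
    rw [hgz]
    exact Nat.lt_floor_add_one _
  have hgzc : ∀ i < j + 1, c₀ ≤ gz i := by
    intro i hi
    have h3 := hgz2 i
    have h4 : w / 2 * v.R J ≤ (s i - d i) * v.R J := by
      refine mul_le_mul_of_nonneg_right ?_ hR0'
      have := hsw i
      have := (hd0 i hi).2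
      linarith
    have h5 : γ * (w / 2) * J ≤ w / 2 * v.R J := by
      have := mul_le_mul_of_nonneg_left hRJ (by linarith : (0 : ℝ) ≤ w / 2)
      linarith
    have h6 : (c₀ : ℝ) ≤ gz i := by linarith
    exact_mod_cast h6
  obtain ⟨g', hg'⟩ : ∃ g' : ℕ → ℕ, g' = fun i => if i < jj then gz i - 1 else gz i - c₀ := ⟨_, rfl⟩
  have hg'1 : ∀ i, g' i ≤ gz i := by
    intro i
    rw [hg']
    beta_reduce
    split_ifs <;> omega
  have hg'2 : ∀ i, gz i ≤ g' i + c₀ := by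
    intro i
    rw [hg']
    beta_reduce
    split_ifs <;> omega
  have hRdef : J - v.B J - v.P J = v.R J := rfl
  have hwR : (⌊w * (v.R J : ℝ)⌋₊ : ℝ) ≤ w * v.R J := Nat.floor_le (mul_nonneg hw0.le hR0')
  have g1 : ⌊w * (v.R J : ℝ)⌋₊ + 1 ≤ v.R J := by
    have h3 : (⌊w * (v.R J : ℝ)⌋₊ : ℝ) + 1 ≤ v.R J := by
      have := mul_le_mul_of_nonneg_left hRJ (by linarith : (0 : ℝ) ≤ 1 - w)
      nlinarith
    exact_mod_cast h3
  have g2 : v.B J + ⌊w * (v.R J : ℝ)⌋₊ + 1 ≤ ⌊x * (J : ℝ)⌋₊ := by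
    refine Nat.le_floor ?_
    have h3 := (sc_units v J hw0.le hw1.le).2.2.1
    push_cast
    linarith
  have g3 : ⌊x * (J : ℝ)⌋₊ ≤ J := Nat.floor_le_of_le (mul_le_of_le_one_left hJ0 hx1)
  have g4 : ∀ i, ⌊min (vs L σ w (b i) + d i) 1 * (v.R J : ℝ)⌋₊ ≤ v.R J := fun i =>
    Nat.floor_le_of_le (mul_le_of_le_one_left hR0' (min_le_right _ _))
  have g5 : ∀ i < j + 1, (1 : ℝ) / 2 ^ v.R J + 1 / 2 ^ gz i +
      2 ^ ⌊d i * (v.R J : ℝ)⌋₊ * ((n + 1) * (1 / 2 ^ v.R J)) ≤ 1 / 2 ^ g' i := by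
    intro i hi
    have h3 := hgz1 i hi
    have h4 : (⌊d i * (v.R J : ℝ)⌋₊ : ℝ) ≤ d i * v.R J :=
      Nat.floor_le (mul_nonneg (hd0 i hi).1.le hR0')
    rcases Nat.lt_or_ge i jj with h5 | h5
    · have h6 : g' i = gz i - 1 := by
        rw [hg']
        exact if_pos h5
      rw [h6]
      refine pw1 ?_ ?_
      · have h7 := hχ i h5
        rw [← hsl i h5] at h7
        have h8 : γ * χ * J ≤ χ * v.R J := by
          have := mul_le_mul_of_nonneg_left hRJ hχ0.le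
          linarith
        have h9 : χ * (v.R J : ℝ) ≤ (1 - s i) * v.R J := mul_le_mul_of_nonneg_right h7 hR0'
        have h10 : ((gz i + ⌊d i * (v.R J : ℝ)⌋₊ + (n + 2) : ℕ) : ℝ) ≤ v.R J := by
          push_cast
          linarith
        exact_mod_cast h10
      · have := hgzc i hi
        omega
    · have h6 : g' i = gz i - c₀ := by
        rw [hg']
        exact if_neg (by omega)
      rw [h6, hc₀]
      refine pw2 ?_ ?_
      · have h9 : s i * (v.R J : ℝ) ≤ v.R J := mul_le_of_le_one_left hR0' (hs1' i)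
        have h10 : ((gz i + ⌊d i * (v.R J : ℝ)⌋₊ : ℕ) : ℝ) ≤ v.R J := by
          push_cast
          linarith
        exact_mod_cast h10
      · have := hgzc i hi
        omega
  have g6 : ∀ i < j + 1, ∀ l < b i, gz l ≤ g' l + 1 := by
    intro i hi l hl
    have hl' : l < jj := hl.trans_le (hb2 i)
    rw [hg']
    beta_reduce
    rw [if_pos hl']
    omega
  have hgz' : ∀ i, gz i = ⌊(s i - d i) * (v.R J : ℝ)⌋₊ := fun i => by rw [hgz]
  obtain ⟨A', a1, a2, a3⟩ := clc_zoom F k1 k2 (v.y J F) (v.line J F) hε (c := c'') (r := j + 1)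
    (b := b) (K := K) (g' := g') (a := ⌊x * J⌋₊) (w₂ := ⌊x * J⌋₊) hClC hb1'
    (by rw [hRdef]; exact g1) g2 (by omega) g3 (fun i _ => by rw [hRdef]; exact g4 i)
    (fun i hi => by rw [hRdef, ← hgz' i]; exact g5 i hi)
    (fun i hi l hl => by rw [← hgz' l]; exact g6 i hi l hl)
  have hlen : ((List.range j).map fun l => ε (c l)).length = j := by simp
  have hgd : ∀ l ≤ j, ((List.range j).map fun l => ε (c l)).getD l (ε (c k)) = ε (c'' l) := by
    intro l hl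
    rcases Nat.lt_or_ge l j with h3 | h3
    · rw [hcl l (by omega)]
      simp [h3]
    · rw [show l = j by omega, hcj]
      simp
  have htk : ∀ l < j, ((List.range j).map fun l => ε (c l)).take l =
      (List.range l).map fun l => ε (c l) := by
    intro l hl
    rw [← List.map_take, List.take_range, min_eq_left hl.le]
  have hPe' : Pe F.p A ≤ 2 * (7 ^ m * 7 ^ n * 99 ^ n) * Pe F.p A' := by
    have h3 : Pe F.p A ≤ 2 * Pe F.p B' := hPe
    calc Pe F.p A ≤ 2 * Pe F.p B' := h3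
      _ ≤ 2 * (7 ^ m * 7 ^ n * 99 ^ n * Pe F.p A') := mul_le_mul_of_nonneg_left a2 (by norm_num)
      _ = _ := by ring
  have hR1 : ∀ i < j + 1, (v.B J : ℝ) + v.P J + g' i ≤ v.sc (s i) * J + 1 - γ * dm * J := by
    intro i hi
    have h3 := (sc_units v J (hw0.le.trans (hsw i)) (hs1' i)).2.1
    have h4 := hgz1 i hi
    have h5 : (g' i : ℝ) ≤ gz i := by exact_mod_cast hg'1 i
    have h6 : γ * dm * J ≤ d i * v.R J := by
      have h7 : dm * (γ * J) ≤ d i * v.R J :=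
        mul_le_mul (hdm i hi) hRJ (mul_nonneg hγ0.le hJ0) (hd0 i hi).1.le
      linarith
    linarith
  refine h1 A' (fun ω hω => hBA ω (a1 ω hω)) hPe' x y ⌊δ * (v.R J : ℝ)⌋₊
    (fun i => v.B J + v.P J + g' i) hx0 hbx hy hxy hw₂a.le hq₂a.le ?_ ?_ ?_ ?_
  · intro l hl
    rw [hlen] at hl
    have h3 := hgz1 l (by omega)
    have h4 : (g' l : ℝ) ≤ gz l := by exact_mod_cast hg'1 l
    have h5 : (s l - d l) * (v.R J : ℝ) ≤ v.R J := by
      refine mul_le_of_le_one_left hR0' ?_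
      have := hs1' l
      have := (hd0 l (by omega)).1
      linarith
    have h6 : ((v.B J + v.P J + g' l : ℕ) : ℝ) ≤ J := by
      push_cast
      linarith
    exact_mod_cast h6
  · intro l hl
    rw [hlen] at hl
    refine le_trans ?_ (le_max_right _ _)
    show ((v.B J + v.P J + g' l : ℕ) : ℝ) ≤
      (β (((List.range j).map fun l => ε (c l)).take l,
        ((List.range j).map fun l => ε (c l)).getD l (ε (c k))) (x + y) x - dd) * J
    rw [htk l hl, hgd l hl.le, hcl l (by omega)]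
    have h3 := hR1 l (by omega)
    have h4 := hside l hl
    have h5 : v.sc (s l) ≤ v.sc (vs L σ w (l + 1)) := by
      refine hsc ?_
      rw [hs]
      refine hmono ?_
      have := hb1' l
      omega
    have h6 := mul_le_mul_of_nonneg_right (h5.trans h4) hJ0
    push_cast
    rw [sub_mul, hdd]
    linarith
  · show ⌊(R w₂ q₂ + h) * J⌋₊ ≤ v.B J + v.P J +
      g' ((List.range j).map fun l => ε (c l)).length
    rw [hlen]
    refine Nat.floor_le_of_le ?_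
    rw [← hp]
    have hsj : vs L σ w (j + 1) ≤ s j := by
      rw [hs]
      simp only
      rcases Nat.eq_or_lt_of_le hjj with h3 | h3
      · rw [show b j = j by rw [hb, h3]; exact min_self j]
      · have h4 := heq h3
        rw [show b j = jj by rw [hb]; exact min_eq_right hjj]
        rw [h4]
        exact hs1 _
    have h3 := (sc_units v J (hw0.le.trans (hsw j)) (hs1' j)).1
    have h4 := mul_le_mul_of_nonneg_right (hsc hsj) hJ0
    have h5 : v.sc (vs L σ w (j + 1)) = p + 2 * h := by rw [hh]; ring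
    rw [h5] at h4
    have h6 := hgz2 j
    have h7 : (gz j : ℝ) ≤ g' j + c₀ := by exact_mod_cast hg'2 j
    have h8 : d j * v.R J ≤ h / 2 * J :=
      mul_le_mul ((hd0 j (by omega)).2.trans hδh) hRle hR0' (by linarith)
    push_cast
    linarith
  · have h3 := ChN.cnd_mono φ (fun ω _ => hφ ω) a3
    have h4 : ChN (F.cnd (V.z ⌊x * J⌋₊ ⌊y * J⌋₊ J F))
        (fun l => ((List.range j).map fun l => ε (c l)).getD l (ε (c k)))
        (((List.range j).map fun l => ε (c l)).length + 1) (fun i => K i + 1) ⌊x * J⌋₊ ⌊x * J⌋₊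
        ⌊δ * (v.R J : ℝ)⌋₊ (fun i => v.B J + v.P J + g' i) A' := by
      rw [hlen]
      exact ChN.congr h3 (fun l hl => (hgd l (by omega)).symm) fun _ _ => rfl
    exact h4

end Pool.GRW
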