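import Pool.Agent.H45.EXA.Nbc

/-!
# Closed labels and natural boxes

`ClC`: closed labels of several coordinates with one closed function, whose gradients are small on
the natural boxes (of the double size) around the own points. `nat_box`, `chn_box`: closed labels
with small gradients near the own points have small gradients on the natural boxes, if the
coordinates are full beyond the precisions; for families and for classes.
-/

set_option autoImplicit false

namespace Pool.GRW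

open Finset Real MvPolynomial
open Pool.Agent.H49.Ent Pool.Agent.H32.Dense Pool.STK Pool.BFL Pool.KA Pool.KSAT Pool.K2S Pool.PB
open Pool.GEN Pool.S6C
open Pool.LIV (Pb_mono25 Pb_or25 Pb_ex25)
open Pool.FLF (Fam.sub)

variable {m J : ℕ}

/-- **Closed labels with small gradients on natural boxes.** -/
structure ClC (F : Fam m J) (c : ℕ → Fin m) (r : ℕ) (b K e ρ g : ℕ → ℕ) (w e' : ℕ)
    (A : F.Ω → Prop) {W : Type} (z : PtT F → W) (z' : LnT F → W)
    (G : W → ℕ → MvPolynomial (Option (Fin m)) ℝ) : Prop where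
  lab : ∀ i < r, LbOK F ((range (b i)).image c) (c i) (K i) (e i) J w (ρ i) (g i) A z z'
    (fun v => G v i)
  zero : ∀ v i, r ≤ i → G v i = 0
  box : ∀ ω, A ω → ∀ i < r, ∀ l < i, ∀ x : Option (Fin m) → ℝ, |x none - F.t ω| ≤ 1 / 2 ^ w →
    (∀ k < b i, |x (some (c k)) - eval x (G (z' (slam F w ω)) k)| ≤ 2 / 2 ^ g k) →
    |eval x (pderiv (some (c l)) (G (z' (slam F w ω)) i))| ≤ 2 ^ e'

/-- **Closed labels with small own gradients**: the gradients are small on natural boxes. -/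
theorem nat_box {r : ℕ} {F : Fam m J} {A : F.Ω → Prop} (hA : 0 < Pe F.p A) {c : ℕ → Fin m}
    (hc : Set.InjOn c (Set.Iio r)) {b : ℕ → ℕ} (hb : ∀ i, b i ≤ i) {K e ρ g M : ℕ → ℕ}
    {w L Mt : ℕ} {W : Type} {z : PtT F → W} {z' : LnT F → W}
    {G : W → ℕ → MvPolynomial (Option (Fin m)) ℝ}
    (hG : ∀ i < r, LbOK F ((range (b i)).image c) (c i) (K i) (e i) J w (ρ i) (g i) A z z'
      (fun v => G v i))
    (hG0 : ∀ v i, r ≤ i → G v i = 0) (hρ : ∀ i < r, ρ i ≤ J) (hw : w + L ≤ J)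
    (hgJ : ∀ i < r, ∀ l < b i, g l + e l + m + 2 + L ≤ J)
    (hM : ∀ l i, l < i → i < r → K i ≤ M l) (hMt : ∀ i < r, K i ≤ Mt)
    {θ : ℕ → ℝ} (hθ : ∀ l, 0 ≤ θ l) {θt : ℝ} (hθt : 0 ≤ θt)
    (htime : (L : ℝ) * Real.log 2 - θt ≤
      CH (Pool.Agent.H49.Ent.cond F.p A True) (F.T1 (w + L)) (slam F w))
    (hfull : ∀ i < r, ∀ l < b i, ((J : ℝ) - g l) * Real.log 2 - θ l ≤
      CH (Pool.Agent.H49.Ent.cond F.p A True) (fun ω => F.X J ω (c l))
        (fun ω => ((fun l' : Fin l => F.X J ω (c l')), z' (slam F w ω), F.W ω)))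
    {γ : ℝ} (h1 : ∀ i < r, ∀ l < b i,
      Cm r (M l) * (θ l + 5) * (8 ^ r * (2 * ((r : ℝ) + 1) ^ 2)) ≤ γ)
    (h1t : Cm r Mt * (θt + 1) * (8 ^ r * (2 * ((r : ℝ) + 1) ^ 2)) ≤ γ)
    (hγL : γ ≤ L * Real.log 2) {e' : ℕ}
    (he' : ∀ i < r, r * γ + e i * Real.log 2 ≤ e' * Real.log 2) :
    ∃ B : F.Ω → Prop, Sub B A ∧ Pe F.p A ≤ 2 * Pe F.p B ∧
      ClC F c r b K e ρ g w e' B z z' G := by
  classical
  have hq := isLaw_cond F.isLaw hA
  have h0 := hq.nonneg
  have hqA : ∀ ω, 0 < Pool.Agent.H49.Ent.cond F.p A True ω → A ω := fun ω hω =>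
    of_eq_true ((cond_pos_iff F.isLaw.nonneg A True ω).1 hω).2
  obtain ⟨q, hqd⟩ : ∃ q, q = Pool.Agent.H49.Ent.cond F.p A True := ⟨_, rfl⟩
  -- the bad events
  obtain ⟨Bd, hBd⟩ : ∃ Bd : ℕ → ℕ → F.Ω → Prop, Bd = fun i l' ω => i < r ∧ l' < b i ∧
      ¬ ∀ x : Option (Fin m) → ℝ,
      DBx (uc c) (fun x => if x = 0 then C ((F.T1 w ω : ℝ) / 2 ^ w) else
        G (z' (slam F w ω)) (x - 1)) (fun x => 2 / 2 ^ (if x = 0 then w else g (x - 1))) 0
        (b i + 1) (xr F ω) x →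
      |eval x (pderiv (some (c l')) (G (z' (slam F w ω)) i))| ≤ Real.exp (r * γ) * 2 ^ e i :=
    ⟨_, rfl⟩
  have hone : ∀ i l', Pb (Pool.Agent.H49.Ent.cond F.p A True) (Bd i l') ≤
      1 / (2 * ((r : ℝ) + 1) ^ 2) := by
    intro i l'
    by_cases h2 : i < r ∧ l' < b i
    · refine le_trans (Pb_mono25 h0 fun ω _ hω => ?_) (nat_one hq hqA hc hb hG hG0 hρ hw hgJ hM
        hMt hθ hθt htime hfull h1 h1t hγL h2.1 h2.2)
      rw [hBd] at hω
      exact hω.2.2
    · have h3 : Pb (Pool.Agent.H49.Ent.cond F.p A True) (Bd i l') ≤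
          Pb (Pool.Agent.H49.Ent.cond F.p A True) (fun _ => False) :=
        Pb_mono25 h0 fun ω _ hω => by
          rw [hBd] at hω
          exact h2 ⟨hω.1, hω.2.1⟩
      refine h3.trans ?_
      have : Pb (Pool.Agent.H49.Ent.cond F.p A True) (fun _ => False) = 0 := by
        unfold Pb
        simp
      rw [this]
      positivity
  obtain ⟨N, hN⟩ : ∃ N : F.Ω → Prop, N = fun ω => ∃ i < r, ∃ l' < r, Bd i l' ω := ⟨_, rfl⟩
  have hr0 : (0 : ℝ) ≤ r := Nat.cast_nonneg r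
  have hbad : Pb (Pool.Agent.H49.Ent.cond F.p A True) N ≤ 1 / 2 := by
    rw [hN]
    have h2 := Pb_ex25 h0 (fun i ω => ∃ l' < r, Bd i l' ω) r (e := r * (1 / (2 * ((r : ℝ) + 1) ^ 2)))
      fun i _ => Pb_ex25 h0 (fun l' ω => Bd i l' ω) r fun l' _ => hone i l'
    refine h2.trans ?_
    have e1 : (r : ℝ) * (r * (1 / (2 * ((r : ℝ) + 1) ^ 2))) = r ^ 2 / (2 * ((r : ℝ) + 1) ^ 2) := by
      ring
    rw [e1, div_le_div_iff₀ (by positivity) (by norm_num)]
    nlinarith
  rw [show Pb (Pool.Agent.H49.Ent.cond F.p A True) N =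
    Pe (Pool.Agent.H49.Ent.cond F.p A True) N by rw [Pe_eq]; rfl, Pe_cond,
    div_le_iff₀ hA] at hbad
  have hγ0 : 0 ≤ γ := by
    refine le_trans ?_ h1t
    have := one_le_Cm r Mt
    positivity
  refine ⟨fun ω => A ω ∧ ¬ N ω, fun ω hω => hω.1, ?_, fun i hi => (hG i hi).sub fun ω hω => hω.1,
    hG0, fun ω hω i hi l hl x hx0 hxk => ?_⟩
  · have h3 := Pool.GRD.Pe_minus (A := A) (B := A) (N := N) F.isLaw.nonneg fun ω hω => hω
    linarith
  · have hwJ : w ≤ J := by omega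
    by_cases hlb : l < b i
    · have h4 : ¬ Bd i l ω := fun h5 => hω.2 (by
        rw [hN]
        exact ⟨i, hi, l, by have := hb i; omega, h5⟩)
      rw [hBd] at h4
      have h5 : ∀ x : Option (Fin m) → ℝ,
          DBx (uc c) (fun x => if x = 0 then C ((F.T1 w ω : ℝ) / 2 ^ w) else
            G (z' (slam F w ω)) (x - 1)) (fun x => 2 / 2 ^ (if x = 0 then w else g (x - 1))) 0
            (b i + 1) (xr F ω) x →
          |eval x (pderiv (some (c l)) (G (z' (slam F w ω)) i))| ≤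
            Real.exp (r * γ) * 2 ^ e i := by
        by_contra hcon
        exact h4 ⟨hi, hlb, hcon⟩
      refine (h5 x ⟨fun k hk => absurd hk (Nat.not_lt_zero _), fun k _ hk => ?_⟩).trans ?_
      · rcases k with - | k
        · simp only [if_true]
          rw [uc_zero, eval_C]
          have k1 := hx0
          have k2 := T1_real F hwJ ω
          have hw0 : (0 : ℝ) < 2 ^ w := by positivity
          have e1 : F.t ω - (F.T1 w ω : ℝ) / 2 ^ w = (2 ^ w * F.t ω - F.T1 w ω) / 2 ^ w := by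
            field_simp
          have k3 : |F.t ω - (F.T1 w ω : ℝ) / 2 ^ w| ≤ 1 / 2 ^ w := by
            rw [e1, abs_div, abs_of_pos hw0]
            refine div_le_div_of_nonneg_right ?_ hw0.le
            rw [abs_le]
            constructor <;> linarith [k2.1, k2.2]
          have e2 : (2 : ℝ) / 2 ^ w = 1 / 2 ^ w + 1 / 2 ^ w := by ring
          rw [e2]
          rw [abs_le] at k1 k3 ⊢
          constructor <;> linarith [k1.1, k1.2, k3.1, k3.2]
        · simp only [Nat.add_sub_cancel, if_neg (Nat.succ_ne_zero k)]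
          rw [uc_succ]
          exact hxk k (by omega)
      · have k1 : Real.exp (r * γ) * 2 ^ e i ≤ 2 ^ e' := by
          have e1 : (2 : ℝ) ^ e i = Real.exp (e i * Real.log 2) := by
            rw [Real.exp_nat_mul, Real.exp_log (by norm_num)]
          have e2 : (2 : ℝ) ^ e' = Real.exp (e' * Real.log 2) := by
            rw [Real.exp_nat_mul, Real.exp_log (by norm_num)]
          rw [e1, e2, ← Real.exp_add]
          exact Real.exp_le_exp.2 (he' i hi)
        exact k1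
    · -- the label does not depend on the coordinate
      have hdc : DepC c (b i) (G (z' (slam F w ω)) i) := by
        intro b₁ b₂ hn hbb
        refine (hG i hi).dep _ b₁ b₂ hn fun k hk => ?_
        obtain ⟨x, hx, rfl⟩ := mem_image.1 hk
        exact hbb x (mem_range.1 hx)
      have h4 : eval x (pderiv (some (c l)) (G (z' (slam F w ω)) i)) = 0 := by
        obtain ⟨gg, hgg⟩ : ∃ gg : Option (Fin m) → Polynomial ℝ, gg = fun o =>
            Polynomial.C (x o) + Polynomial.C (if o = some (c l) then 1 else 0) *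
              Polynomial.X := ⟨_, rfl⟩
        have hge : ∀ (Q : MvPolynomial (Option (Fin m)) ℝ) (t : ℝ),
            (MvPolynomial.aeval gg Q).eval t =
              eval (fun o => x o + (if o = some (c l) then 1 else 0) * t) Q := by
          intro Q t
          rw [Pool.KBX.eval_aeval_poly]
          congr 1
          congr 1
          funext o
          rw [hgg]
          simp only [Polynomial.eval_add, Polynomial.eval_mul, Polynomial.eval_C,
            Polynomial.eval_X]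
        have hd : (Polynomial.derivative (MvPolynomial.aeval gg
            (G (z' (slam F w ω)) i))).eval 0 =
            eval x (pderiv (some (c l)) (G (z' (slam F w ω)) i)) := by
          rw [der_aevalσ, Polynomial.eval_finsetSum, Finset.sum_eq_single (some (c l))]
          · rw [Polynomial.eval_mul, hge]
            rw [hgg]
            simp
          · intro o _ ho
            rw [Polynomial.eval_mul, hgg]
            simp [ho]
          · intro h'
            exact absurd (Finset.mem_univ _) h'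
        have hcst : MvPolynomial.aeval gg (G (z' (slam F w ω)) i) =
            Polynomial.C (eval x (G (z' (slam F w ω)) i)) := by
          refine Polynomial.funext fun t => ?_
          rw [hge, Polynomial.eval_C]
          refine hdc _ _ ?_ fun k hk => ?_
          · show x none + (if (none : Option (Fin m)) = some (c l) then (1 : ℝ) else 0) * t =
              x none
            rw [if_neg (by simp)]
            ring
          · have hne : (some (c k) : Option (Fin m)) ≠ some (c l) := fun h5 => by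
              have := hc (show k ∈ Set.Iio r from by simp only [Set.mem_Iio]; have := hb i; omega)
                (show l ∈ Set.Iio r from by simp only [Set.mem_Iio]; omega)
                (Option.some_injective _ h5)
              omega
            show x (some (c k)) + (if some (c k) = some (c l) then (1 : ℝ) else 0) * t =
              x (some (c k))
            rw [if_neg hne]
            ring
        rw [← hd, hcst, Polynomial.derivative_C, Polynomial.eval_zero]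
      rw [h4, abs_zero]
      positivity


/-- **Closed labels and fullness**: the gradients are small on the natural boxes. -/
theorem chn_box {S : PCl m} {c : ℕ → Fin m} {r : ℕ}
    (hc : Set.InjOn c (Set.Iio r)) {w : ℝ} (htm : TmWn S w) (hw0 : 0 ≤ w) (hw1 : w < 1) {s : ℕ → ℝ}
    {b : ℕ → ℕ} (hb : ∀ i, b i ≤ i) (hs0 : ∀ i < r, 0 ≤ s i)
    (hlt : ∀ i < r, ∀ l < b i, s l < 1)
    (hfull : ∀ ρ : ℝ, 0 < ρ → Bas S (fun J F A => ∀ (V : Type) (z : PtT F → V) (z' : LnT F → V),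
      (∀ ω, A ω → z (ptr F J ω) = z' (slam F ⌊w * J⌋₊ ω)) → ∀ i < r, ∀ l < b i,
      ((1 - s l) - ρ) * Real.log 2 * J ≤ CH (Pool.Agent.H49.Ent.cond F.p A True)
        (fun ω => F.X J ω (c l)) (fun ω => ((fun l' : Fin l => F.X J ω (c l')),
          z' (slam F ⌊w * J⌋₊ ω), F.W ω))))
    {rd : ℕ → ℝ} (hatt : ∀ i < r, ∀ e : ℝ, 0 < e → ∃ K : ℕ, Bas S (fun J F A =>
      Lb F ((range (b i)).image c) (c i) K ⌊e * J⌋₊ J ⌊w * J⌋₊ ⌊min (rd i + e) 1 * J⌋₊
        ⌊(s i - e) * J⌋₊ A))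
    {φ : ℕ → ℝ} (hφ : ∀ M, 0 < φ M) {δ : ℝ} (hδ : 0 < δ) :
    ∃ (K : ℕ → ℕ) (d : ℕ → ℝ), (∀ i < r, 0 < d i ∧ d i ≤ δ ∧ d i ≤ φ ((Finset.Ioo i r).sup K)) ∧
      Bas S (fun J F A => ∃ B : F.Ω → Prop, Sub B A ∧ Pe F.p A ≤ 2 * Pe F.p B ∧
        ∃ (W : Type) (z : PtT F → W) (z' : LnT F → W)
          (G : W → ℕ → MvPolynomial (Option (Fin m)) ℝ),
          ClC F c r b K (fun i => ⌊d i * J⌋₊) (fun i => ⌊min (rd i + d i) 1 * J⌋₊)
            (fun i => ⌊(s i - d i) * J⌋₊) ⌊w * J⌋₊ ⌊δ * J⌋₊ B z z' G) := by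
  classical
  have hl0 : 0 < Real.log 2 := Real.log_pos one_lt_two
  have hl1 : Real.log 2 ≤ 1 := by
    have := Real.log_two_lt_d9
    linarith
  have hl2 : 1 / 2 ≤ Real.log 2 := by
    have := Real.log_two_gt_d9
    linarith
  -- the room
  have hroom : ∃ χ : ℝ, 0 < χ ∧ w + χ ≤ 1 ∧ ∀ l < r, s l < 1 → s l + 3 * χ ≤ 1 := by
    have key : ∀ k, ∃ χ : ℝ, 0 < χ ∧ w + χ ≤ 1 ∧ ∀ l < k, s l < 1 → s l + 3 * χ ≤ 1 := by
      intro k
      induction k with
      | zero => exact ⟨1 - w, by linarith, by linarith, fun l hl => absurd hl (Nat.not_lt_zero l)⟩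
      | succ k ih =>
        obtain ⟨χ, h1, h2, h3⟩ := ih
        by_cases hk : s k < 1
        · refine ⟨min χ ((1 - s k) / 3), lt_min h1 (by linarith), by
            have := min_le_left χ ((1 - s k) / 3)
            linarith, fun l hl hl1 => ?_⟩
          have e1 := min_le_left χ ((1 - s k) / 3)
          have e2 := min_le_right χ ((1 - s k) / 3)
          rcases Nat.lt_or_ge l k with h4 | h4
          · have := h3 l h4 hl1
            linarith
          · rw [show l = k by omega]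
            linarith
        · refine ⟨χ, h1, h2, fun l hl hl1 => ?_⟩
          rcases Nat.lt_or_ge l k with h4 | h4
          · exact h3 l h4 hl1
          · rw [show l = k by omega] at hl1
            exact absurd hl1 hk
    exact key r
  obtain ⟨χ, hχ, hwχ, hsχ⟩ := hroom
  -- the constants
  obtain ⟨Q, hQ⟩ : ∃ Q : ℝ, Q = 8 ^ r * (2 * ((r : ℝ) + 1) ^ 2) := ⟨_, rfl⟩
  have hQ0 : 0 < Q := by rw [hQ]; positivity
  obtain ⟨γ₀, hγ₀⟩ : ∃ γ₀ : ℝ, γ₀ = min (χ / 4) (δ / (8 * ((r : ℝ) + 1))) := ⟨_, rfl⟩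
  have hγ0 : 0 < γ₀ := by rw [hγ₀]; exact lt_min (by positivity) (by positivity)
  have hγχ : γ₀ ≤ χ / 4 := by rw [hγ₀]; exact min_le_left _ _
  have hγδ : r * γ₀ ≤ δ / 8 := by
    have h1 : γ₀ ≤ δ / (8 * ((r : ℝ) + 1)) := by rw [hγ₀]; exact min_le_right _ _
    have h2 : (r : ℝ) * (δ / (8 * ((r : ℝ) + 1))) ≤ δ / 8 := by
      rw [mul_div_assoc', div_le_div_iff₀ (by positivity) (by norm_num)]
      have : (0 : ℝ) ≤ r := Nat.cast_nonneg r
      nlinarith
    exact (mul_le_mul_of_nonneg_left h1 (Nat.cast_nonneg r)).trans h2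
  obtain ⟨φ', hφ'⟩ : ∃ φ' : ℕ → ℝ, φ' = fun M =>
    min (min (φ M) (min (δ / 4) (χ / 2))) (γ₀ / (4 * (Cm r M * Q))) := ⟨_, rfl⟩
  have hCm : ∀ M, 0 < Cm r M := fun M => zero_lt_one.trans_le (one_le_Cm r M)
  have hφ'0 : ∀ M, 0 < φ' M := by
    intro M
    rw [hφ']
    have := hCm M
    exact lt_min (lt_min (hφ M) (lt_min (by positivity) (by positivity))) (by positivity)
  have hφ1 : ∀ M, φ' M ≤ φ M := fun M => by
    rw [hφ']
    exact (min_le_left _ _).trans (min_le_left _ _)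
  have hφ2 : ∀ M, φ' M ≤ δ / 4 := fun M => by
    rw [hφ']
    exact (min_le_left _ _).trans ((min_le_right _ _).trans (min_le_left _ _))
  have hφ3 : ∀ M, φ' M ≤ χ / 2 := fun M => by
    rw [hφ']
    exact (min_le_left _ _).trans ((min_le_right _ _).trans (min_le_right _ _))
  have hφ4 : ∀ M, Cm r M * Q * φ' M ≤ γ₀ / 4 := by
    intro M
    have h1 : φ' M ≤ γ₀ / (4 * (Cm r M * Q)) := by
      rw [hφ']
      exact min_le_right _ _
    have h2 : 0 < Cm r M * Q := mul_pos (hCm M) hQ0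
    refine (mul_le_mul_of_nonneg_left h1 h2.le).trans (le_of_eq ?_)
    have h3 := h2.ne'
    rw [mul_div_assoc', div_eq_div_iff (by positivity) (by norm_num)]
    ring
  -- the labels
  have hKf : ∀ (i : ℕ) (e : ℝ), ∃ K : ℕ, i < r → 0 < e → Bas S (fun J F A =>
      Lb F ((range (b i)).image c) (c i) K ⌊e * J⌋₊ J ⌊w * J⌋₊ ⌊min (rd i + e) 1 * J⌋₊
        ⌊(s i - e) * J⌋₊ A) := by
    intro i e
    by_cases h : i < r ∧ 0 < e
    · obtain ⟨K, hK⟩ := hatt i h.1 e h.2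
      exact ⟨K, fun _ _ => hK⟩
    · exact ⟨0, fun h1 h2 => absurd ⟨h1, h2⟩ h⟩
  choose Kf hKf using hKf
  obtain ⟨K, d, hKd⟩ := hier r Kf φ' hφ'0
  refine ⟨K, d, fun i hi => ⟨(hKd i hi).1, ?_, (hKd i hi).2.2.trans (hφ1 _)⟩, ?_⟩
  · have h1 := (hKd i hi).2.2.trans (hφ2 _)
    linarith
  obtain ⟨Mt, hMt⟩ : ∃ Mt, Mt = (range r).sup K := ⟨_, rfl⟩
  have hMtQ : 0 < Cm r Mt * Q := mul_pos (hCm Mt) hQ0
  obtain ⟨ρ, hρ⟩ : ∃ ρ : ℝ, ρ = γ₀ / (4 * (Cm r Mt * Q)) := ⟨_, rfl⟩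
  have hρ0 : 0 < ρ := by rw [hρ]; positivity
  have hρQ : Cm r Mt * Q * ρ = γ₀ / 4 := by
    rw [hρ, mul_div_assoc', div_eq_div_iff (by positivity) (by norm_num)]
    ring
  have hall : Bas S (fun J F A => ∀ i < r, Lb F ((range (b i)).image c) (c i) (K i)
      ⌊d i * J⌋₊ J ⌊w * J⌋₊ ⌊min (rd i + d i) 1 * J⌋₊ ⌊(s i - d i) * J⌋₊ A) := by
    refine Bas.all r fun i hi => ?_
    have h1 := hKf i (d i) hi (hKd i hi).1
    rw [← (hKd i hi).2.1] at h1
    exact h1
  obtain ⟨J₁, hJ₁⟩ := exists_nat_ge ((m + 2) / χ)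
  obtain ⟨J₂, hJ₂⟩ := exists_nat_ge (4 / χ)
  obtain ⟨J₃, hJ₃⟩ := exists_nat_ge (4 / δ)
  obtain ⟨J₄, hJ₄⟩ := exists_nat_ge (24 * (Cm r Mt * Q) / γ₀)
  refine Bas.mono (J₁ + J₂ + J₃ + J₄) ((hfull ρ hρ0).and (hall.and (htm ρ hρ0))) ?_
  rintro J hJ F A ⟨hf, hlb, hA, htime⟩
  have hJ0 : (0 : ℝ) ≤ J := Nat.cast_nonneg J
  have hJ' : (J₁ : ℝ) + J₂ + J₃ + J₄ ≤ J := by exact_mod_cast hJ
  have hn1 : (0 : ℝ) ≤ J₁ := Nat.cast_nonneg _
  have hn2 : (0 : ℝ) ≤ J₂ := Nat.cast_nonneg _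
  have hn3 : (0 : ℝ) ≤ J₃ := Nat.cast_nonneg _
  have hn4 : (0 : ℝ) ≤ J₄ := Nat.cast_nonneg _
  have k1 : (m : ℝ) + 2 ≤ χ * J := by
    have : (m + 2) / χ ≤ J := by linarith
    rw [div_le_iff₀ hχ] at this
    linarith
  have k2 : 4 ≤ χ * J := by
    have : 4 / χ ≤ J := by linarith
    rw [div_le_iff₀ hχ] at this
    linarith
  have k3 : 4 ≤ δ * J := by
    have : 4 / δ ≤ J := by linarith
    rw [div_le_iff₀ hδ] at this
    linarith
  have k4 : 24 * (Cm r Mt * Q) ≤ γ₀ * J := by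
    have : 24 * (Cm r Mt * Q) / γ₀ ≤ J := by linarith
    rw [div_le_iff₀ hγ0] at this
    linarith
  -- one type of the labels
  choose V z z' G hG using hlb
  obtain ⟨L, hL⟩ : ∃ L, L = ⌊χ * (J : ℝ)⌋₊ := ⟨_, rfl⟩
  have hLle : (L : ℝ) ≤ χ * J := by
    rw [hL]
    exact Nat.floor_le (by positivity)
  have hLge : χ * J - 1 ≤ L := by
    rw [hL]
    have := Nat.lt_floor_add_one (χ * (J : ℝ))
    linarith
  have hd1 : ∀ i < r, d i ≤ δ / 4 := fun i hi => (hKd i hi).2.2.trans (hφ2 _)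
  have hd2 : ∀ i < r, d i ≤ χ / 2 := fun i hi => (hKd i hi).2.2.trans (hφ3 _)
  obtain ⟨θ, hθ⟩ : ∃ θ : ℕ → ℝ, θ = fun l => (|d l| + ρ) * J + 1 := ⟨_, rfl⟩
  obtain ⟨z₀, hz₀⟩ : ∃ z₀ : PtT F → (∀ i : Fin r, V i i.2), z₀ = fun y (i : Fin r) => z i i.2 y :=
    ⟨_, rfl⟩
  obtain ⟨z₀', hz₀'⟩ : ∃ z₀' : LnT F → (∀ i : Fin r, V i i.2), z₀' = fun y (i : Fin r) => z' i i.2 y :=
    ⟨_, rfl⟩
  obtain ⟨G₀, hG₀⟩ : ∃ G₀ : (∀ i : Fin r, V i i.2) → ℕ → MvPolynomial (Option (Fin m)) ℝ,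
    G₀ = fun v i => if hi : i < r then G i hi (v ⟨i, hi⟩) else 0 := ⟨_, rfl⟩
  have hG₀e : ∀ v i (hi : i < r), G₀ v i = G i hi (v ⟨i, hi⟩) := by
    intro v i hi
    rw [hG₀]
    exact dif_pos hi
  have hlab : ∀ i < r, LbOK F ((range (b i)).image c) (c i) (K i) ⌊d i * J⌋₊ J ⌊w * J⌋₊
      ⌊min (rd i + d i) 1 * J⌋₊ ⌊(s i - d i) * J⌋₊ A z₀ z₀' (fun v => G₀ v i) := by
    intro i hi
    have h1 := hG i hi
    have e1 : (fun v => G₀ v i) = fun v => G i hi (v ⟨i, hi⟩) := funext fun v => hG₀e v i hi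
    rw [e1, hz₀, hz₀']
    refine ⟨fun v => h1.deg _, fun v => h1.dep _, fun ω hω => ?_, h1.pos, h1.vel, h1.lip⟩
    funext j
    exact (hG j j.2).cls ω hω
  have hwJ : ⌊w * (J : ℝ)⌋₊ + L ≤ J := by
    have h1 : ((⌊w * (J : ℝ)⌋₊ + L : ℕ) : ℝ) ≤ J := by
      push_cast
      have := Nat.floor_le (show 0 ≤ w * (J : ℝ) by positivity)
      nlinarith
    exact_mod_cast h1
  have key := nat_box (F := F) (A := A) (c := c) (b := b) (K := K)
    (e := fun i => ⌊d i * J⌋₊) (ρ := fun i => ⌊min (rd i + d i) 1 * (J : ℝ)⌋₊)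
    (g := fun i => ⌊(s i - d i) * (J : ℝ)⌋₊) (M := fun l => (Finset.Ioo l r).sup K)
    (w := ⌊w * (J : ℝ)⌋₊) (L := L) (Mt := Mt) (z := z₀) (z' := z₀') (G := G₀) (θ := θ)
    (θt := ρ * J) (γ := γ₀ * J) (e' := ⌊δ * (J : ℝ)⌋₊) hA hc hb hlab
    (fun v i hi => by rw [hG₀]; exact dif_neg (by omega))
    (fun i _ => Nat.floor_le_of_le (by
      calc min (rd i + d i) 1 * (J : ℝ) ≤ 1 * J :=
            mul_le_mul_of_nonneg_right (min_le_right _ _) hJ0
        _ = J := one_mul _)) hwJ ?_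
    (fun l i h1 h2 => Finset.le_sup (f := K) (Finset.mem_Ioo.2 ⟨h1, h2⟩))
    (fun i hi => by rw [hMt]; exact Finset.le_sup (f := K) (Finset.mem_range.2 hi))
    (fun l => by rw [hθ]; positivity) (by positivity) (htime L hwJ) ?_ ?_ ?_ ?_ ?_
  · obtain ⟨B, h1, h2, h3⟩ := key
    exact ⟨B, h1, h2, _, _, _, _, h3⟩
  · -- the room
    intro i hi l hl
    have hlr : l < r := (hl.trans_le (hb i)).trans hi
    have h1 := hsχ l hlr (hlt i hi l hl)
    have h2 := hd2 l hlr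
    have h3 := (hKd l hlr).1
    have h4 : (⌊(s l - d l) * (J : ℝ)⌋₊ : ℝ) ≤ s l * J := by
      rcases le_or_gt 0 ((s l - d l) * (J : ℝ)) with h5 | h5
      · refine (Nat.floor_le h5).trans ?_
        nlinarith
      · rw [Nat.floor_of_nonpos h5.le, Nat.cast_zero]
        exact mul_nonneg (hs0 l hlr) hJ0
    have h5 : (⌊d l * (J : ℝ)⌋₊ : ℝ) ≤ χ / 2 * J :=
      (Nat.floor_le (by positivity)).trans (mul_le_mul_of_nonneg_right h2 hJ0)
    have h6 : ((⌊(s l - d l) * (J : ℝ)⌋₊ + ⌊d l * (J : ℝ)⌋₊ + m + 2 + L : ℕ) : ℝ) ≤ J := by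
      push_cast
      nlinarith
    exact_mod_cast h6
  · -- fullness
    intro i hi l hl
    have hlr : l < r := (hl.trans_le (hb i)).trans hi
    have h1 := hf _ z₀ z₀' (fun ω hω => (hlab i hi).cls ω hω) i hi l hl
    refine le_trans ?_ h1
    rw [hθ]
    have h2 : (s l - d l) * (J : ℝ) < ⌊(s l - d l) * (J : ℝ)⌋₊ + 1 := Nat.lt_floor_add_one _
    have h3 := (hKd l hlr).1
    have h4 : |d l| = d l := abs_of_pos h3
    beta_reduce
    rw [h4]
    have h5 : ((J : ℝ) - ⌊(s l - d l) * (J : ℝ)⌋₊) * Real.log 2 ≤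
        (J - s l * J + d l * J + 1) * Real.log 2 :=
      mul_le_mul_of_nonneg_right (by linarith) hl0.le
    have h6 : (d l * J + 1) * Real.log 2 ≤ d l * J + 1 :=
      mul_le_of_le_one_right (by positivity) hl1
    have h7 : ρ * J * Real.log 2 ≤ ρ * J := mul_le_of_le_one_right (by positivity) hl1
    nlinarith
  · -- the losses of the coordinates
    intro i hi l hl
    have hlr : l < r := (hl.trans_le (hb i)).trans hi
    have h3 := (hKd l hlr).1
    rw [← hQ, hθ]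
    beta_reduce
    rw [abs_of_pos h3]
    have hM1 : Cm r ((Finset.Ioo l r).sup K) ≤ Cm r Mt := by
      refine Cm_mono ?_
      rw [hMt]
      refine Finset.sup_le fun x hx => Finset.le_sup (f := K) (Finset.mem_range.2 ?_)
      exact (Finset.mem_Ioo.1 hx).2
    have hC := hCm ((Finset.Ioo l r).sup K)
    have h4 : Cm r ((Finset.Ioo l r).sup K) * Q * d l ≤ γ₀ / 4 :=
      (mul_le_mul_of_nonneg_left (hKd l hlr).2.2 (by positivity)).trans (hφ4 _)
    have h5 : Cm r ((Finset.Ioo l r).sup K) * Q * ρ ≤ γ₀ / 4 := by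
      rw [← hρQ]
      exact mul_le_mul_of_nonneg_right (mul_le_mul_of_nonneg_right hM1 hQ0.le) hρ0.le
    have h6 : Cm r ((Finset.Ioo l r).sup K) * Q * 6 ≤ γ₀ * J / 4 := by
      have := mul_le_mul_of_nonneg_right hM1 hQ0.le
      linarith
    have h7 := mul_le_mul_of_nonneg_right h4 hJ0
    have h8 := mul_le_mul_of_nonneg_right h5 hJ0
    have e1 : Cm r ((Finset.Ioo l r).sup K) * ((d l + ρ) * J + 1 + 5) * Q =
        Cm r ((Finset.Ioo l r).sup K) * Q * d l * J +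
        Cm r ((Finset.Ioo l r).sup K) * Q * ρ * J + Cm r ((Finset.Ioo l r).sup K) * Q * 6 := by
      ring
    rw [e1]
    have : 0 ≤ γ₀ * J := by positivity
    linarith
  · -- the loss of the time
    rw [← hQ]
    have h5 := mul_le_mul_of_nonneg_right hρQ.le hJ0
    have e1 : Cm r Mt * (ρ * J + 1) * Q = Cm r Mt * Q * ρ * J + Cm r Mt * Q := by ring
    rw [e1]
    have : 0 ≤ γ₀ * J := by positivity
    linarith
  · -- the room for the growth
    have h1 : γ₀ * J ≤ χ / 4 * J := mul_le_mul_of_nonneg_right hγχ hJ0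
    have h2 : (χ * J - 1) * (1 / 2) ≤ L * Real.log 2 := by
      have h3 : 0 ≤ χ * J - 1 := by linarith
      exact mul_le_mul hLge hl2 (by norm_num) (Nat.cast_nonneg L)
    linarith
  · -- the gradient
    intro i hi
    have h1 : (⌊d i * (J : ℝ)⌋₊ : ℝ) ≤ δ / 4 * J :=
      (Nat.floor_le (mul_nonneg (hKd i hi).1.le hJ0)).trans
        (mul_le_mul_of_nonneg_right (hd1 i hi) hJ0)
    have h2 : δ * (J : ℝ) < ⌊δ * (J : ℝ)⌋₊ + 1 := Nat.lt_floor_add_one _
    have h3 := mul_le_mul_of_nonneg_right hγδ hJ0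
    have h4 : (⌊d i * (J : ℝ)⌋₊ : ℝ) * Real.log 2 ≤ δ / 4 * J * Real.log 2 :=
      mul_le_mul_of_nonneg_right h1 hl0.le
    have h5 : (δ * (J : ℝ) - 1) * Real.log 2 ≤ ⌊δ * (J : ℝ)⌋₊ * Real.log 2 :=
      mul_le_mul_of_nonneg_right (by linarith) hl0.le
    have h6 : δ * J * (1 / 2) ≤ δ * J * Real.log 2 :=
      mul_le_mul_of_nonneg_left hl2 (by positivity)
    have e1 : (r : ℝ) * (γ₀ * J) = r * γ₀ * J := by ring
    beta_reduce
    rw [e1]
    nlinarith


end Pool.GRW
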