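import Pool.Agent.H45.REC.Tsb
import Pool.Agent.H45.REC.Nbx
import Pool.Agent.H72.REC.ExaV
import Pool.Agent.H71.GEN.Comp
import Pool.Agent.H80.KS6.Plk

/-!
# Closed labels of a zoom are labels of the family

`clc_zoom`: closed labels, with small gradients on natural boxes, of the zoom of some coordinates
into a window and a tube are a chain of labels of the family with the visible variable and the
digits of the velocities of these coordinates as side information.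
-/

set_option autoImplicit false

namespace Pool.GRW

open Finset Real MvPolynomial
open Pool.Agent.H49.Ent Pool.Agent.H32.Dense Pool.STK Pool.BFL Pool.KA Pool.KSAT Pool.K2S Pool.PB
open Pool.GEN Pool.S6C Pool.REX

variable {m n J : ℕ}

section

variable (F : Fam m J) {B P : ℕ} (hP : P ≤ J - B) {κ : Type} (y : F.Ω → κ) (ε : Fin n → Fin m)

/-- The visible variable and the digits of the velocities. -/
noncomputable def ydg (P : ℕ) (ω : F.Ω) : κ × (Fin n → ℤ) := (y ω, fun k => F.D P ω (ε k))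

/-- The time in the window. -/
theorem win_t (hB : B ≤ J) (ω : F.Ω) : (F.win B).t ω = 2 ^ B * F.t ω - F.T1 B ω := by
  have h := Pool.KA.Win.time_split J B (F.T ω) hB
  have h1 : F.t ω = (F.T1 B ω : ℝ) / 2 ^ B + (F.win B).t ω * (2 ^ B)⁻¹ := by
    unfold Fam.t Fam.T1
    exact h
  rw [h1]
  have b : (2 : ℝ) ^ B ≠ 0 := by positivity
  field_simp
  ring

theorem tm_mem {J' : ℕ} (G : Fam m J') (ω : G.Ω) : 0 ≤ G.t ω ∧ G.t ω ≤ 1 := by
  have p0 : (0 : ℝ) < 2 ^ J' := by positivity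
  unfold Fam.t
  refine ⟨by positivity, ?_⟩
  rw [div_le_one p0]
  exact_mod_cast (G.tim ω).le

/-- The cell at the beginning of the window, from the point. -/
theorem fl_near (hB : B ≤ J) {ω ω' : F.Ω} (hX : F.X J ω = F.X J ω') (i : Fin m) :
    |fl B (F.x1 B ω) i - fl B (F.x1 B ω') i| ≤ 3 := by
  have a1 := Pool.K2S.NPL.win_x F hB ω i
  have a2 := Pool.K2S.NPL.win_x F hB ω' i
  have hX' : ⌊(2 : ℝ) ^ J * F.x ω i⌋ = ⌊(2 : ℝ) ^ J * F.x ω' i⌋ := congrFun hX i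
  have c1 := Int.floor_le ((2 : ℝ) ^ J * F.x ω i)
  have c2 := Int.lt_floor_add_one ((2 : ℝ) ^ J * F.x ω i)
  have c3 := Int.floor_le ((2 : ℝ) ^ J * F.x ω' i)
  have c4 := Int.lt_floor_add_one ((2 : ℝ) ^ J * F.x ω' i)
  rw [hX'] at c1 c2
  have hJ : (2 : ℝ) ^ J = 2 ^ (J - B) * 2 ^ B := by
    rw [← pow_add]
    congr 1
    omega
  have p1 : (1 : ℝ) ≤ 2 ^ (J - B) := one_le_pow₀ (by norm_num)
  have hd : |(2 : ℝ) ^ B * F.x ω i - 2 ^ B * F.x ω' i| < 1 := by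
    have h1 : |(2 : ℝ) ^ J * F.x ω i - 2 ^ J * F.x ω' i| < 1 := by
      rw [abs_lt]
      constructor <;> linarith
    have h2 : (2 : ℝ) ^ J * F.x ω i - 2 ^ J * F.x ω' i =
        2 ^ (J - B) * (2 ^ B * F.x ω i - 2 ^ B * F.x ω' i) := by
      rw [hJ]
      ring
    rw [h2, abs_mul, abs_of_nonneg (by positivity)] at h1
    have h3 := abs_nonneg ((2 : ℝ) ^ B * F.x ω i - 2 ^ B * F.x ω' i)
    nlinarith
  have hb : ∀ ω : F.Ω, -1 ≤ (F.win B).x ω i ∧ (F.win B).x ω i < 2 := by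
    intro ω
    have u0 : 0 ≤ (F.win B).u ω i := Int.fract_nonneg _
    have u1 : (F.win B).u ω i < 1 := Int.fract_lt_one _
    obtain ⟨t0, t1⟩ := tm_mem (F.win B) ω
    have d0 := abs_le.1 ((F.win B).dir ω i)
    have e1 : (F.win B).t ω * (F.win B).d ω i ≤ 1 := by nlinarith [d0.1, d0.2]
    have e2 : -1 ≤ (F.win B).t ω * (F.win B).d ω i := by nlinarith [d0.1, d0.2]
    show -1 ≤ (F.win B).u ω i + (F.win B).t ω * (F.win B).d ω i ∧
      (F.win B).u ω i + (F.win B).t ω * (F.win B).d ω i < 2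
    constructor <;> linarith
  have hb1 := hb ω
  have hb2 := hb ω'
  rw [a1] at hb1
  rw [a2] at hb2
  have key : |((fl B (F.x1 B ω) i - fl B (F.x1 B ω') i : ℤ) : ℝ)| < 4 := by
    rw [abs_lt] at hd ⊢
    push_cast
    constructor <;> linarith [hb1.1, hb1.2, hb2.1, hb2.2, hd.1, hd.2]
  have : |fl B (F.x1 B ω) i - fl B (F.x1 B ω') i| < 4 := by exact_mod_cast key
  omega

/-- The tube at the beginning of the window, from the point, the velocity and the cell. -/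
theorem L_near (hP : P ≤ J - B) (hB : B ≤ J) {ω ω' : F.Ω} {i : Fin m}
    (hX : F.X J ω i = F.X J ω' i) (hT : F.T ω = F.T ω') (hD : F.D P ω i = F.D P ω' i)
    (hf : fl B (F.x1 B ω) i = fl B (F.x1 B ω') i) :
    |((F.win B).L P ω).1 i - ((F.win B).L P ω').1 i| ≤ 3 := by
  have a1 := Pool.K2S.NPL.win_x F hB ω i
  have a2 := Pool.K2S.NPL.win_x F hB ω' i
  have hX' : ⌊(2 : ℝ) ^ J * F.x ω i⌋ = ⌊(2 : ℝ) ^ J * F.x ω' i⌋ := hX
  have c1 := Int.floor_le ((2 : ℝ) ^ J * F.x ω i)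
  have c2 := Int.lt_floor_add_one ((2 : ℝ) ^ J * F.x ω i)
  have c3 := Int.floor_le ((2 : ℝ) ^ J * F.x ω' i)
  have c4 := Int.lt_floor_add_one ((2 : ℝ) ^ J * F.x ω' i)
  rw [hX'] at c1 c2
  have hJ : (2 : ℝ) ^ J = 2 ^ (J - B - P) * (2 ^ P * 2 ^ B) := by
    rw [← pow_add, ← pow_add]
    congr 1
    omega
  have p1 : (1 : ℝ) ≤ 2 ^ (J - B - P) := one_le_pow₀ (by norm_num)
  have hd : |(2 : ℝ) ^ P * (F.win B).x ω i - 2 ^ P * (F.win B).x ω' i| < 1 := by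
    have h1 : |(2 : ℝ) ^ J * F.x ω i - 2 ^ J * F.x ω' i| < 1 := by
      rw [abs_lt]
      constructor <;> linarith
    have h2 : (2 : ℝ) ^ J * F.x ω i - 2 ^ J * F.x ω' i =
        2 ^ (J - B - P) * (2 ^ P * (F.win B).x ω i - 2 ^ P * (F.win B).x ω' i) := by
      rw [a1, a2, hf, hJ]
      ring
    rw [h2, abs_mul, abs_of_nonneg (by positivity)] at h1
    have h3 := abs_nonneg ((2 : ℝ) ^ P * (F.win B).x ω i - 2 ^ P * (F.win B).x ω' i)
    nlinarith
  have ht : (F.win B).t ω = (F.win B).t ω' := by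
    show ((F.T ω % 2 ^ (J - B) : ℕ) : ℝ) / 2 ^ (J - B) =
      ((F.T ω' % 2 ^ (J - B) : ℕ) : ℝ) / 2 ^ (J - B)
    rw [hT]
  obtain ⟨t0, t1⟩ := tm_mem (F.win B) ω'
  have hD' : ⌊(2 : ℝ) ^ P * F.d ω i⌋ = ⌊(2 : ℝ) ^ P * F.d ω' i⌋ := hD
  have d1 := Int.floor_le ((2 : ℝ) ^ P * F.d ω i)
  have d2 := Int.lt_floor_add_one ((2 : ℝ) ^ P * F.d ω i)
  have d3 := Int.floor_le ((2 : ℝ) ^ P * F.d ω' i)
  have d4 := Int.lt_floor_add_one ((2 : ℝ) ^ P * F.d ω' i)
  rw [hD'] at d1 d2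
  have hdd : |(2 : ℝ) ^ P * F.d ω i - 2 ^ P * F.d ω' i| < 1 := by
    rw [abs_lt]
    constructor <;> linarith
  have ex : ∀ ω : F.Ω, (F.win B).x ω i = (F.win B).u ω i + (F.win B).t ω * F.d ω i := fun _ => rfl
  rw [ex, ex, ht] at hd
  have hu : |(2 : ℝ) ^ P * (F.win B).u ω i - 2 ^ P * (F.win B).u ω' i| < 2 := by
    have h1 : |(F.win B).t ω' * ((2 : ℝ) ^ P * F.d ω i - 2 ^ P * F.d ω' i)| ≤ 1 := by
      rw [abs_mul, abs_of_nonneg t0]
      exact mul_le_one₀ t1 (abs_nonneg _) hdd.le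
    rw [abs_lt] at hd ⊢
    rw [abs_le] at h1
    constructor <;> nlinarith [h1.1, h1.2, hd.1, hd.2]
  have g1 := Int.floor_le ((2 : ℝ) ^ P * (F.win B).u ω i)
  have g2 := Int.lt_floor_add_one ((2 : ℝ) ^ P * (F.win B).u ω i)
  have g3 := Int.floor_le ((2 : ℝ) ^ P * (F.win B).u ω' i)
  have g4 := Int.lt_floor_add_one ((2 : ℝ) ^ P * (F.win B).u ω' i)
  change |⌊(2 : ℝ) ^ P * (F.win B).u ω i⌋ - ⌊(2 : ℝ) ^ P * (F.win B).u ω' i⌋| ≤ 3
  have key : |((⌊(2 : ℝ) ^ P * (F.win B).u ω i⌋ - ⌊(2 : ℝ) ^ P * (F.win B).u ω' i⌋ : ℤ) : ℝ)| ≤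
      3 := by
    rw [abs_le]
    rw [abs_lt] at hu
    push_cast
    constructor <;> linarith [hu.1, hu.2]
  exact_mod_cast key

/-- The position in the zoom. -/
noncomputable def zs (B P : ℕ) (ω : F.Ω) : Option (Fin n) → ℝ
  | none => 2 ^ B * F.t ω - F.T1 B ω
  | some k => 2 ^ (B + P) * F.x ω (ε k) - (2 ^ P * (fl B (F.x1 B ω) (ε k) : ℝ) +
      (((F.win B).L P ω).1 (ε k) : ℝ)) - (((F.win B).L P ω).2 (ε k) : ℝ) *
        (2 ^ B * F.t ω - F.T1 B ω)

theorem zs_near (hB : B ≤ J) (ω : F.Ω) (o : Option (Fin n)) :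
    |bt (zmV F hP y ε) ω o - zs F ε B P ω o| ≤ 1 / 2 ^ (J - B - P) := by
  have p0 : (0 : ℝ) < 2 ^ (J - B - P) := by positivity
  rcases o with _ | k
  · have e1 := win_t F hB ω
    have e2 : bt (zmV F hP y ε) ω none = ((F.T ω % 2 ^ (J - B) / 2 ^ P : ℕ) : ℝ) / 2 ^ (J - B - P) :=
      rfl
    have e3 : (F.win B).t ω = ((F.T ω % 2 ^ (J - B) : ℕ) : ℝ) / 2 ^ (J - B) := rfl
    show |bt (zmV F hP y ε) ω none - (2 ^ B * F.t ω - F.T1 B ω)| ≤ _
    rw [← e1, e2, e3]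
    obtain ⟨a, ha⟩ : ∃ a, a = F.T ω % 2 ^ (J - B) := ⟨_, rfl⟩
    rw [← ha]
    have e4 : (2 : ℝ) ^ (J - B) = 2 ^ P * 2 ^ (J - B - P) := by
      rw [← pow_add]
      congr 1
      omega
    have pP : (0 : ℝ) < 2 ^ P := by positivity
    have h1 : ((a / 2 ^ P : ℕ) : ℝ) * 2 ^ P ≤ a := by exact_mod_cast Nat.div_mul_le_self a (2 ^ P)
    have h2 : (a : ℝ) < (((a / 2 ^ P : ℕ) : ℝ) + 1) * 2 ^ P := by
      have := Nat.lt_div_mul_add (a := a) (b := 2 ^ P) (by positivity)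
      have h3 : (a : ℝ) < ((a / 2 ^ P * 2 ^ P + 2 ^ P : ℕ) : ℝ) := by exact_mod_cast this
      push_cast at h3
      linarith
    rw [e4, ← div_div, ← sub_div, abs_div, abs_of_pos p0]
    refine div_le_div_of_nonneg_right ?_ p0.le
    rw [abs_le]
    have h3 : (a : ℝ) / 2 ^ P ≤ ((a / 2 ^ P : ℕ) : ℝ) + 1 := by
      rw [div_le_iff₀ pP]
      exact h2.le
    have h4 : ((a / 2 ^ P : ℕ) : ℝ) ≤ a / 2 ^ P := by
      rw [le_div_iff₀ pP]
      exact h1
    constructor <;> linarith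
  · have h1 := zm_close F hP y hB ω (ε k)
    have e1 := win_t F hB ω
    rw [e1] at h1
    have e2 : (2 : ℝ) ^ J = 2 ^ (J - B - P) * 2 ^ (B + P) := by
      rw [← pow_add]
      congr 1
      omega
    have e3 : (2 : ℝ) ^ (J - B) = 2 ^ (J - B - P) * 2 ^ P := by
      rw [← pow_add]
      congr 1
      omega
    rw [e2, e3] at h1
    show |(zm F B P hP y).x ω (ε k) - (2 ^ (B + P) * F.x ω (ε k) -
      (2 ^ P * (fl B (F.x1 B ω) (ε k) : ℝ) + (((F.win B).L P ω).1 (ε k) : ℝ)) -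
        (((F.win B).L P ω).2 (ε k) : ℝ) * (2 ^ B * F.t ω - F.T1 B ω))| ≤ _
    rw [le_div_iff₀ p0, ← abs_of_pos p0, ← abs_mul]
    refine le_trans (le_of_eq ?_) h1
    congr 1
    ring

/-- The line in the zoom of some coordinates. -/
theorem zmV_of_slam {w : ℕ} (hB : B ≤ J) (hw : w ≤ J - B - P)
    (hy : ∀ ω ω' : F.Ω, slam F B ω = slam F B ω' → y ω = y ω') {ω ω' : F.Ω}
    (h : slam F (B + w) ω = slam F (B + w) ω') :
    slam (zmV F hP y ε) w ω = slam (zmV F hP y ε) w ω' := by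
  have h1 := zm_of_slam F hP y hB hw hy h
  have hl : (zm F B P hP y).l ω = (zm F B P hP y).l ω' := (Prod.ext_iff.mp h1).1
  have h2 := Prod.ext_iff.mp (Prod.ext_iff.mp h1).2
  have hZ : (zm F B P hP y).Z ω = (zm F B P hP y).Z ω' := h2.1
  have hT : (zm F B P hP y).T1 w ω = (zm F B P hP y).T1 w ω' := h2.2
  rw [zm_Z, zm_Z] at hZ
  have hL := Prod.ext_iff.mp (Prod.ext_iff.mp hZ).1
  have hyc : (y ω, F.c B ω) = (y ω', F.c B ω') := (Prod.ext_iff.mp hZ).2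
  have hu : (zm F B P hP y).u ω = (zm F B P hP y).u ω' := (Prod.ext_iff.mp hl).1
  have hd : (zm F B P hP y).d ω = (zm F B P hP y).d ω' := (Prod.ext_iff.mp hl).2
  refine Prod.ext (Prod.ext ?_ ?_) (Prod.ext ?_ hT)
  · funext j
    exact congrFun hu (ε j)
  · funext j
    exact congrFun hd (ε j)
  · show (zmV F hP y ε).Z ω = (zmV F hP y ε).Z ω'
    rw [zmV_Z, zmV_Z, hyc, hL.1, hL.2]

/-- The data of the substitution, from the line in the zoom. -/
theorem dat_of_zmV {w : ℕ} {ω ω' : F.Ω}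
    (h : slam (zmV F hP y ε) w ω = slam (zmV F hP y ε) w ω') :
    F.T1 B ω = F.T1 B ω' ∧ fl B (F.x1 B ω) = fl B (F.x1 B ω') ∧
      (∀ k, ((F.win B).L P ω).1 (ε k) = ((F.win B).L P ω').1 (ε k)) ∧
      ∀ k, ((F.win B).L P ω).2 (ε k) = ((F.win B).L P ω').2 (ε k) := by
  have h1 := Prod.ext_iff.mp (Prod.ext_iff.mp h).2
  have hZ : (zmV F hP y ε).Z ω = (zmV F hP y ε).Z ω' := h1.1
  rw [zmV_Z, zmV_Z] at hZ
  have hL := Prod.ext_iff.mp (Prod.ext_iff.mp hZ).1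
  have hyc := Prod.ext_iff.mp (Prod.ext_iff.mp hZ).2
  have hc := Prod.ext_iff.mp (Prod.ext_iff.mp hyc.2).1
  exact ⟨hc.1, hc.2, fun k => congrFun hL.1 k, fun k => congrFun hL.2 k⟩

/-- **A large part of the event**, where the point determines the point of the zoom. -/
theorem ptr_part (hB : B ≤ J) (A : F.Ω → Prop) :
    ∃ A' : F.Ω → Prop, Sub A' A ∧ Pe F.p A ≤ 7 ^ m * 7 ^ n * 99 ^ n * Pe F.p A' ∧
      ∀ ω ω', A' ω → A' ω' → ptr (F.cnd (ydg F y ε P)) J ω = ptr (F.cnd (ydg F y ε P)) J ω' →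
        ptr (zmV F hP y ε) (J - B - P) ω = ptr (zmV F hP y ε) (J - B - P) ω' ∧
        F.T1 B ω = F.T1 B ω' ∧ fl B (F.x1 B ω) = fl B (F.x1 B ω') ∧
        (∀ k, ((F.win B).L P ω).1 (ε k) = ((F.win B).L P ω').1 (ε k)) ∧
        ∀ k, ((F.win B).L P ω).2 (ε k) = ((F.win B).L P ω').2 (ε k) := by
  have hpt : ∀ ω ω' : F.Ω, ptr (F.cnd (ydg F y ε P)) J ω = ptr (F.cnd (ydg F y ε P)) J ω' →
      F.X J ω = F.X J ω' ∧ F.T ω = F.T ω' ∧ y ω = y ω' ∧
        (∀ k, F.D P ω (ε k) = F.D P ω' (ε k)) ∧ F.Z ω = F.Z ω' := by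
    intro ω ω' h
    have h1 := Prod.ext_iff.mp h
    have h2 := Prod.ext_iff.mp h1.2
    have h3 : ydg F y ε P ω = ydg F y ε P ω' := (Prod.ext_iff.mp h2.2).1
    have h4 := Prod.ext_iff.mp h3
    exact ⟨h1.1, h2.1, h4.1, fun k => congrFun h4.2 k, (Prod.ext_iff.mp h2.2).2⟩
  obtain ⟨B₁, b1, b2, φ₁, b3⟩ := Pool.S6K.exact_label F.isLaw 3
    (ptr (F.cnd (ydg F y ε P)) J) (fun ω => fl B (F.x1 B ω)) A
    (fun ω ω' _ _ h i => by exact_mod_cast fl_near F hB (hpt ω ω' h).1 i)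
  obtain ⟨B₂, c1, c2, φ₂, c3⟩ := Pool.S6K.exact_label F.isLaw 3
    (ptr (F.cnd (ydg F y ε P)) J) (fun ω (k : Fin n) => ((F.win B).L P ω).1 (ε k)) B₁
    (fun ω ω' hω hω' h i => by
      obtain ⟨e1, e2, -, e4, -⟩ := hpt ω ω' h
      have e5 : fl B (F.x1 B ω) = fl B (F.x1 B ω') := by rw [b3 ω hω, b3 ω' hω', h]
      exact_mod_cast L_near F hP hB (congrFun e1 (ε i)) e2 (e4 i) (congrFun e5 (ε i)))
  obtain ⟨B₃, d1, d2, φ₃, d3⟩ := Pool.S6K.exact_label F.isLaw 49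
    (ptr (F.cnd (ydg F y ε P)) J) ((zmV F hP y ε).X (J - B - P)) B₂
    (fun ω ω' hω hω' h i => by
      obtain ⟨e1, e2, -, e4, -⟩ := hpt ω ω' h
      have e5 : fl B (F.x1 B ω) = fl B (F.x1 B ω') := by
        rw [b3 ω (c1 ω hω), b3 ω' (c1 ω' hω'), h]
      have e6 : (fun (k : Fin n) => ((F.win B).L P ω).1 (ε k)) =
          fun (k : Fin n) => ((F.win B).L P ω').1 (ε k) := by rw [c3 ω hω, c3 ω' hω', h]
      exact_mod_cast near1k F hP y hB e2 (congrFun e6 i) (e4 i) (congrFun e5 (ε i))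
        (congrFun e1 (ε i)))
  refine ⟨B₃, fun ω hω => b1 ω (c1 ω (d1 ω hω)), ?_, fun ω ω' hω hω' h => ?_⟩
  · refine b2.trans ?_
    have h1 : ((2 : ℝ) * (3 : ℕ) + 1) = 7 := by norm_num
    have h2 : ((2 : ℝ) * (49 : ℕ) + 1) = 99 := by norm_num
    rw [h1] at b2 c2 ⊢
    rw [h2] at d2
    calc (7 : ℝ) ^ m * Pe F.p B₁ ≤ 7 ^ m * (7 ^ n * Pe F.p B₂) :=
          mul_le_mul_of_nonneg_left c2 (by positivity)
      _ ≤ 7 ^ m * (7 ^ n * (99 ^ n * Pe F.p B₃)) :=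
          mul_le_mul_of_nonneg_left (mul_le_mul_of_nonneg_left d2 (by positivity)) (by positivity)
      _ = _ := by ring
  · obtain ⟨e1, e2, e3, e4, e5⟩ := hpt ω ω' h
    have f1 : fl B (F.x1 B ω) = fl B (F.x1 B ω') := by
      rw [b3 ω (c1 ω (d1 ω hω)), b3 ω' (c1 ω' (d1 ω' hω')), h]
    have f2 : (fun (k : Fin n) => ((F.win B).L P ω).1 (ε k)) =
        fun (k : Fin n) => ((F.win B).L P ω').1 (ε k) := by rw [c3 ω (d1 ω hω), c3 ω' (d1 ω' hω'), h]
    have f3 : (zmV F hP y ε).X (J - B - P) ω = (zmV F hP y ε).X (J - B - P) ω' := by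
      rw [d3 ω hω, d3 ω' hω', h]
    have f4 : F.T1 B ω = F.T1 B ω' := by
      unfold Fam.T1
      rw [e2]
    have f5 : (fun (k : Fin n) => ((F.win B).L P ω).2 (ε k)) =
        fun (k : Fin n) => ((F.win B).L P ω').2 (ε k) := funext e4
    refine ⟨Prod.ext f3 (Prod.ext ?_ ?_), f4, f1, fun k => congrFun f2 k, fun k => congrFun f5 k⟩
    · show (zmV F hP y ε).T ω = (zmV F hP y ε).T ω'
      rw [zmV_T, zmV_T, zm_T, zm_T, e2]
    · show (zmV F hP y ε).Z ω = (zmV F hP y ε).Z ω'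
      have f6 : F.c B ω = F.c B ω' := by
        unfold Fam.c
        rw [f4, f1, e5]
      rw [zmV_Z, zmV_Z, e3, f6, f2, f5]

/-- The substituted point. -/
theorem sbt_bt (ω : F.Ω) :
    (fun o => eval (bt F ω) (sbt B (B + P) (F.T1 B ω)
      (fun k => 2 ^ P * (fl B (F.x1 B ω) (ε k) : ℝ) + (((F.win B).L P ω).1 (ε k) : ℝ))
      (fun k => (((F.win B).L P ω).2 (ε k) : ℝ)) ε o)) = zs F ε B P ω := by
  funext o
  rcases o with _ | k
  · rw [eval_sbt_none]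
    rfl
  · rw [eval_sbt_some]
    rfl

end

theorem sub_qst {w W : ℕ} {a : ℝ} {cv vv : Fin n → ℝ} {ε : Fin n → Fin m}
    {Q : MvPolynomial (Option (Fin n)) ℝ} (b : Option (Fin m) → ℝ) (k : Fin n) :
    eval b (sbt w W a cv vv ε (some k)) - eval (fun o => eval b (sbt w W a cv vv ε o)) Q =
      2 ^ W * (b (some (ε k)) - eval b (qst w W a cv vv ε Q k)) := by
  rw [eval_sbt_some, eval_qst]
  have p0 : (2 : ℝ) ^ W ≠ 0 := by positivity
  field_simp
  ring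

/-- **Closed labels of a zoom are labels of the family**, with the visible variable and the digits
of the velocities as side information. -/
theorem clc_zoom (F : Fam m J) {B P : ℕ} (hB : B ≤ J) (hP : P ≤ J - B) {κ : Type} (y : F.Ω → κ)
    (hy : ∀ ω ω' : F.Ω, slam F B ω = slam F B ω' → y ω = y ω') {ε : Fin n → Fin m}
    (hε : Function.Injective ε) {c : ℕ → Fin n} {r : ℕ} {b K e ρ g : ℕ → ℕ} {w e' : ℕ}
    {A : F.Ω → Prop} {V : Type} {z : PtT (zmV F hP y ε) → V} {z' : LnT (zmV F hP y ε) → V}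
    {G : V → ℕ → MvPolynomial (Option (Fin n)) ℝ}
    (h : ClC (zmV F hP y ε) c r b K e ρ g w e' A z z' G) (hb : ∀ i, b i ≤ i) {g' : ℕ → ℕ}
    {a w₂ : ℕ} (hw : w + 1 ≤ J - B - P) (ha : B + w + 1 ≤ a) (hw₂ : B + w ≤ w₂) (hw₂J : w₂ ≤ J)
    (hρ : ∀ i < r, ρ i ≤ J - B - P)
    (hpos : ∀ i < r, (1 : ℝ) / 2 ^ (J - B - P) + 1 / 2 ^ g i +
      2 ^ e i * ((n + 1) * (1 / 2 ^ (J - B - P))) ≤ 1 / 2 ^ g' i)
    (hg : ∀ i < r, ∀ l < b i, g l ≤ g' l + 1) :
    ∃ A' : F.Ω → Prop, Sub A' A ∧ Pe F.p A ≤ 7 ^ m * 7 ^ n * 99 ^ n * Pe F.p A' ∧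
      ChN (F.cnd (ydg F y ε P)) (fun i => ε (c i)) r (fun i => K i + 1) a w₂ e'
        (fun i => B + P + g' i) A' := by
  classical
  obtain ⟨A', h1, h2, h3⟩ := ptr_part F hP y ε hB A
  refine ⟨A', h1, h2, ?_⟩
  by_cases hr : r = 0
  · subst hr
    exact ⟨fun _ _ => 0, fun _ _ => 0, fun _ _ => by rw [totalDegree_zero]; exact Nat.zero_le _,
      fun _ _ => by rw [totalDegree_zero]; exact Nat.zero_le _,
      fun _ _ => fun _ _ _ _ => by rw [map_zero, map_zero],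
      fun _ _ => fun _ _ _ _ => by rw [map_zero, map_zero],
      fun ω _ i hi => absurd hi (Nat.not_lt_zero i), fun ω _ i hi => absurd hi (Nat.not_lt_zero i),
      fun ω _ i hi => absurd hi (Nat.not_lt_zero i)⟩
  have hcls : ∀ ω, A ω → z (ptr (zmV F hP y ε) (J - B - P) ω) =
      z' (slam (zmV F hP y ε) w ω) := (h.lab 0 (by omega)).cls
  obtain ⟨cv, hcv⟩ : ∃ cv : F.Ω → Fin n → ℝ, cv = fun ω k =>
    2 ^ P * (fl B (F.x1 B ω) (ε k) : ℝ) + (((F.win B).L P ω).1 (ε k) : ℝ) := ⟨_, rfl⟩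
  obtain ⟨vv, hvv⟩ : ∃ vv : F.Ω → Fin n → ℝ, vv = fun ω k =>
    (((F.win B).L P ω).2 (ε k) : ℝ) := ⟨_, rfl⟩
  obtain ⟨val, hval⟩ : ∃ val : F.Ω → V × ℕ × (Fin n → ℝ) × (Fin n → ℝ), val = fun ω =>
    (z' (slam (zmV F hP y ε) w ω), F.T1 B ω, cv ω, vv ω) := ⟨_, rfl⟩
  obtain ⟨yp, hyp⟩ := fac (f := ptr (F.cnd (ydg F y ε P)) J) (Y := val) (B := A') (by
    intro ω ω' hω hω' hpt
    obtain ⟨e1, e2, e3, e4, e5⟩ := h3 ω ω' hω hω' hpt
    rw [hval]
    beta_reduce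
    rw [← hcls ω (h1 ω hω), ← hcls ω' (h1 ω' hω'), e1, e2, hcv, hvv]
    simp only [e3, e4, e5])
  obtain ⟨yl, hyl⟩ := fac (f := slam (F.cnd (ydg F y ε P)) w₂) (Y := val) (B := A') (by
    intro ω ω' hω hω' hsl
    have k1 := Prod.ext_iff.mp hsl
    have k2 := Prod.ext_iff.mp k1.2
    have k3 : F.Z ω = F.Z ω' := (Prod.ext_iff.mp k2.1).2
    have k4 : slam F w₂ ω = slam F w₂ ω' := Prod.ext k1.1 (Prod.ext k3 k2.2)
    have k5 : slam F (B + w) ω = slam F (B + w) ω' := by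
      rw [slam_coarse F hw₂ hw₂J ω, slam_coarse F hw₂ hw₂J ω', k4]
    have k6 := zmV_of_slam F hP y ε hB (by omega) hy k5
    obtain ⟨e2, e3, e4, e5⟩ := dat_of_zmV F hP y ε k6
    rw [hval]
    beta_reduce
    rw [k6, e2, hcv, hvv]
    simp only [e3, e4, e5])
  obtain ⟨Gf, hGf⟩ : ∃ Gf : Option (V × ℕ × (Fin n → ℝ) × (Fin n → ℝ)) → ℕ →
      MvPolynomial (Option (Fin m)) ℝ, Gf = fun o i => match o with
    | none => 0
    | some v => qst B (B + P) v.2.1 v.2.2.1 v.2.2.2 ε (G v.1 i) (c i) := ⟨_, rfl⟩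
  have hdeg : ∀ o i, (Gf o i).totalDegree ≤ K i + 1 := by
    intro o i
    rw [hGf]
    rcases o with _ | v
    · show (0 : MvPolynomial (Option (Fin m)) ℝ).totalDegree ≤ _
      rw [totalDegree_zero]
      exact Nat.zero_le _
    · refine deg_qst ?_
      by_cases hi : i < r
      · exact (h.lab i hi).deg v.1
      · rw [h.zero v.1 i (by omega), totalDegree_zero]
        exact Nat.zero_le _
  have hdep : ∀ o i, DepC (fun j => ε (c j)) i (Gf o i) := by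
    intro o i
    rw [hGf]
    rcases o with _ | v
    · intro b b' _ _
      show eval b (0 : MvPolynomial (Option (Fin m)) ℝ) = eval b' 0
      rw [map_zero, map_zero]
    · refine dep_qst (c := c) (i := i) ?_ (c i)
      by_cases hi : i < r
      · intro b₁ b₂ hn hbb
        refine (h.lab i hi).dep _ b₁ b₂ hn fun k hk => ?_
        obtain ⟨x, hx, rfl⟩ := mem_image.1 hk
        have := hb i
        exact hbb x (by have := mem_range.1 hx; omega)
      · intro b₁ b₂ _ _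
        rw [h.zero v.1 i (by omega), map_zero, map_zero]
  have hGp : ∀ ω, A' ω → ∀ i, Gf (yp (ptr (F.cnd (ydg F y ε P)) J ω)) i =
      qst B (B + P) (F.T1 B ω) (cv ω) (vv ω) ε (G (z' (slam (zmV F hP y ε) w ω)) i) (c i) := by
    intro ω hω i
    rw [hyp ω hω, hGf, hval]
  have hGl : ∀ ω, A' ω → ∀ i, Gf (yl (slam (F.cnd (ydg F y ε P)) w₂ ω)) i =
      qst B (B + P) (F.T1 B ω) (cv ω) (vv ω) ε (G (z' (slam (zmV F hP y ε) w ω)) i) (c i) := by
    intro ω hω i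
    rw [hyl ω hω, hGf, hval]
  have hzs : ∀ ω, (fun o => eval (bt F ω) (sbt B (B + P) (F.T1 B ω) (cv ω) (vv ω) ε o)) =
      zs F ε B P ω := by
    intro ω
    rw [hcv, hvv]
    exact sbt_bt F ε ω
  refine ⟨fun u i => Gf (yp u) i, fun s i => Gf (yl s) i, fun u i => hdeg _ i,
    fun s i => hdeg _ i, fun u i => hdep _ i, fun s i => hdep _ i, fun ω hω i hi => ?_,
    fun ω hω i hi x hx => ?_, fun ω hω i hi x hx l hl => ?_⟩
  · -- the position
    have hωA := h1 ω hω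
    show |F.x ω (ε (c i)) - eval (bt F ω) (Gf (yp (ptr (F.cnd (ydg F y ε P)) J ω)) i)| ≤ _
    rw [hGp ω hω]
    have k1 := sub_qst (w := B) (W := B + P) (a := F.T1 B ω) (cv := cv ω) (vv := vv ω) (ε := ε)
      (Q := G (z' (slam (zmV F hP y ε) w ω)) i) (bt F ω) (c i)
    rw [hzs ω] at k1
    have k2 : eval (bt F ω) (sbt B (B + P) (F.T1 B ω) (cv ω) (vv ω) ε (some (c i))) =
        zs F ε B P ω (some (c i)) := congrFun (hzs ω) (some (c i))
    rw [k2] at k1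
    have k3 : bt F ω (some (ε (c i))) = F.x ω (ε (c i)) := rfl
    rw [k3] at k1
    have k4 := zs_near F hP y ε hB ω
    have k5 := (h.lab i hi).pos ω hωA
    have k6 : (zmV F hP y ε).x ω (c i) = bt (zmV F hP y ε) ω (some (c i)) := rfl
    rw [k6] at k5
    have hρi := hρ i hi
    have k7 : |eval (zs F ε B P ω) (G (z' (slam (zmV F hP y ε) w ω)) i) -
        eval (bt (zmV F hP y ε) ω) (G (z' (slam (zmV F hP y ε) w ω)) i)| ≤
        2 ^ e i * ((n + 1) * (1 / 2 ^ (J - B - P))) := by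
      refine (mvσ _ _ _ (2 ^ e i) fun x hx o => (h.lab i hi).lip ω hωA x (fun o' =>
        ((hx o').trans ?_)) o).trans ?_
      · rw [abs_sub_comm]
        exact (k4 o').trans (inv_mono hρi)
      · refine mul_le_mul_of_nonneg_left ?_ (by positivity)
        calc ∑ o, |zs F ε B P ω o - bt (zmV F hP y ε) ω o| ≤
              ∑ _o : Option (Fin n), (1 : ℝ) / 2 ^ (J - B - P) :=
              Finset.sum_le_sum fun o _ => by
                rw [abs_sub_comm]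
                exact k4 o
          _ = _ := by
              rw [Finset.sum_const, Finset.card_univ, Fintype.card_option, Fintype.card_fin,
                nsmul_eq_mul]
              push_cast
              ring
    have k8 := k4 (some (c i))
    have k9 : |zs F ε B P ω (some (c i)) -
        eval (zs F ε B P ω) (G (z' (slam (zmV F hP y ε) w ω)) i)| ≤ 1 / 2 ^ g' i := by
      refine le_trans ?_ (hpos i hi)
      rw [abs_le] at k5 k7 k8 ⊢
      constructor <;> linarith [k5.1, k5.2, k7.1, k7.2, k8.1, k8.2]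
    rw [k1, abs_mul, abs_of_nonneg (by positivity)] at k9
    have p0 : (0 : ℝ) < 2 ^ (B + P) := by positivity
    have e1 : (1 : ℝ) / 2 ^ (B + P + g' i) = 1 / 2 ^ g' i / 2 ^ (B + P) := by
      rw [pow_add (2 : ℝ) (B + P) (g' i)]
      field_simp
    rw [e1, le_div_iff₀ p0, mul_comm]
    exact k9
  · rw [hGp ω hω, hGl ω hω, sub_self, abs_zero]
    positivity
  · -- the gradients
    have hωA := h1 ω hω
    obtain ⟨hx0, hxk⟩ := hx
    show |eval x (pderiv (some (ε (c l))) (Gf (yp (ptr (F.cnd (ydg F y ε P)) J ω)) i))| ≤ _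
    rw [hGp ω hω, pd_qst hε]
    have k1 : (2 : ℝ) ^ e' ≤ 2 ^ (e' + nlp (fun i => B + P + g' i) l i) :=
      pow_le_pow_right₀ (by norm_num) (Nat.le_add_right _ _)
    refine le_trans (h.box ω hωA i hi l hl _ ?_ fun k hk => ?_) k1
    · have e1 := eval_sbt_none (w := B) (W := B + P) (a := F.T1 B ω) (cv := cv ω) (vv := vv ω)
        (e := ε) x
      rw [e1]
      have k2 := zs_near F hP y ε hB ω none
      have k3 : bt (zmV F hP y ε) ω none = (zmV F hP y ε).t ω := rfl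
      have k4 : zs F ε B P ω none = 2 ^ B * F.t ω - F.T1 B ω := rfl
      rw [k3, k4] at k2
      have k5 : (F.cnd (ydg F y ε P)).t ω = F.t ω := rfl
      rw [k5] at hx0
      have pB : (0 : ℝ) < 2 ^ B := by positivity
      have k6 : |2 ^ B * x none - 2 ^ B * F.t ω| ≤ 1 / 2 ^ (w + 1) := by
        rw [← mul_sub, abs_mul, abs_of_pos pB]
        have k7 : (1 : ℝ) / 2 ^ a ≤ 1 / 2 ^ (B + (w + 1)) := inv_mono (by omega)
        calc 2 ^ B * |x none - F.t ω| ≤ 2 ^ B * (1 / 2 ^ (B + (w + 1))) :=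
              mul_le_mul_of_nonneg_left (hx0.trans k7) pB.le
          _ = 1 / 2 ^ (w + 1) := by
              rw [pow_add]
              field_simp
      have k8 : (1 : ℝ) / 2 ^ (J - B - P) ≤ 1 / 2 ^ (w + 1) := inv_mono hw
      have k9 : (1 : ℝ) / 2 ^ w = 1 / 2 ^ (w + 1) + 1 / 2 ^ (w + 1) := by
        rw [pow_succ]
        field_simp
        norm_num
      rw [k9]
      rw [abs_le] at k2 k6 ⊢
      constructor <;> linarith [k2.1, k2.2, k6.1, k6.2]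
    · have hki : k < i := hk.trans_le (hb i)
      have k2 : |x (some (ε (c k))) - eval x (Gf (yp (ptr (F.cnd (ydg F y ε P)) J ω)) k)| ≤
        1 / 2 ^ (B + P + g' k) := hxk k hki
      rw [hGp ω hω] at k2
      rw [sub_qst, abs_mul, abs_of_nonneg (by positivity)]
      have p0 : (0 : ℝ) < 2 ^ (B + P) := by positivity
      have e1 : (1 : ℝ) / 2 ^ (B + P + g' k) = 1 / 2 ^ g' k / 2 ^ (B + P) := by
        rw [pow_add (2 : ℝ) (B + P) (g' k)]
        field_simp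
      rw [e1, le_div_iff₀ p0, mul_comm] at k2
      refine k2.trans ?_
      have k3 := hg i hi k hk
      have k4 : (1 : ℝ) / 2 ^ (g' k + 1) ≤ 1 / 2 ^ g k := inv_mono k3
      have k5 : (1 : ℝ) / 2 ^ (g' k + 1) = 1 / 2 * (1 / 2 ^ g' k) := by
        rw [pow_succ]
        field_simp
      have k6 : (2 : ℝ) / 2 ^ g k = 2 * (1 / 2 ^ g k) := by ring
      rw [k6]
      linarith

end Pool.GRW
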