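import Pool.Agent.H71.GEN.Poly
import Pool.Agent.H80.GEN.Chn

/-!
# Substitution of a label of a zoom into a tube in a label of the family

The zoom has windows of length `2 ^ (-w)` and positions in units `2 ^ (-W)`, up to a motion with
constant velocity.
-/

set_option autoImplicit false

namespace Pool.GRW

open Finset Real MvPolynomial
open Pool.GEN

variable {m n : ℕ}

/-- The time and the coordinates of the zoom. -/
noncomputable def sbt (w W : ℕ) (a : ℝ) (cv vv : Fin n → ℝ) (e : Fin n → Fin m) :
    Option (Fin n) → MvPolynomial (Option (Fin m)) ℝ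
  | none => tbx m w a
  | some k => C (2 ^ W) * X (some (e k)) - C (cv k) - C (vv k) * tbx m w a

/-- The coordinate `e k`, by the label `Q` of the zoom. -/
noncomputable def qst (w W : ℕ) (a : ℝ) (cv vv : Fin n → ℝ) (e : Fin n → Fin m)
    (Q : MvPolynomial (Option (Fin n)) ℝ) (k : Fin n) : MvPolynomial (Option (Fin m)) ℝ :=
  C (1 / 2 ^ W) * (aeval (sbt w W a cv vv e) Q + C (cv k) + C (vv k) * tbx m w a)

variable {w W : ℕ} {a : ℝ} {cv vv : Fin n → ℝ} {e : Fin n → Fin m}
  {Q : MvPolynomial (Option (Fin n)) ℝ}

theorem eval_sbt_none (b : Option (Fin m) → ℝ) :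
    eval b (sbt w W a cv vv e none) = 2 ^ w * b none - a := eval_tbx b

theorem eval_sbt_some (b : Option (Fin m) → ℝ) (k : Fin n) :
    eval b (sbt w W a cv vv e (some k)) =
      2 ^ W * b (some (e k)) - cv k - vv k * (2 ^ w * b none - a) := by
  unfold sbt
  rw [map_sub, map_sub, map_mul, map_mul, eval_C, eval_C, eval_C, eval_X, eval_tbx]

theorem eval_qst (b : Option (Fin m) → ℝ) (k : Fin n) :
    eval b (qst w W a cv vv e Q k) = 1 / 2 ^ W * (eval (fun o => eval b (sbt w W a cv vv e o)) Q +
      cv k + vv k * (2 ^ w * b none - a)) := by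
  unfold qst
  rw [map_mul, map_add, map_add, map_mul, eval_C, eval_C, eval_C, eval_tbx, eval_aevalσ]

theorem deg_sbt (o : Option (Fin n)) : (sbt w W a cv vv e o).totalDegree ≤ 1 := by
  rcases o with _ | k
  · exact deg_tbx
  · unfold sbt
    refine (totalDegree_sub _ _).trans (max_le ((totalDegree_sub _ _).trans (max_le ?_ ?_)) ?_)
    · refine (totalDegree_mul _ _).trans ?_
      rw [totalDegree_C, totalDegree_X]
    · rw [totalDegree_C]
      exact Nat.zero_le _
    · refine (totalDegree_mul _ _).trans ?_
      rw [totalDegree_C, zero_add]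
      exact deg_tbx

theorem deg_qst {K : ℕ} {k : Fin n} (hQ : Q.totalDegree ≤ K) :
    (qst w W a cv vv e Q k).totalDegree ≤ K + 1 := by
  unfold qst
  refine (totalDegree_mul _ _).trans ?_
  rw [totalDegree_C, zero_add]
  refine (totalDegree_add _ _).trans (max_le ((totalDegree_add _ _).trans (max_le ?_ ?_)) ?_)
  · have := totalDegree_aevalσ (g := sbt w W a cv vv e) (fun k => deg_sbt k) hQ
    omega
  · rw [totalDegree_C]
    exact Nat.zero_le _
  · refine (totalDegree_mul _ _).trans ?_
    rw [totalDegree_C, zero_add]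
    exact deg_tbx.trans (by omega)

/-- The dependence. -/
theorem dep_qst {c : ℕ → Fin n} {i : ℕ} (hQ : DepC c i Q) (k : Fin n) :
    DepC (fun j => e (c j)) i (qst w W a cv vv e Q k) := by
  intro b b' h0 hb
  rw [eval_qst, eval_qst, h0]
  congr 3
  refine hQ _ _ ?_ fun l hl => ?_
  · rw [eval_sbt_none, eval_sbt_none, h0]
  · rw [eval_sbt_some, eval_sbt_some, h0, hb l hl]

/-- **The gradients** in the directions of the coordinates are the same. -/
theorem pd_qst (he : Function.Injective e) (b : Option (Fin m) → ℝ) (k l : Fin n) :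
    eval b (pderiv (some (e l)) (qst w W a cv vv e Q k)) =
      eval (fun o => eval b (sbt w W a cv vv e o)) (pderiv (some l) Q) := by
  classical
  have p0 : (0 : ℝ) < 2 ^ W := by positivity
  have hS : ∀ o', eval b (pderiv (some (e l)) (sbt w W a cv vv e o')) =
      if o' = some l then 2 ^ W else 0 := by
    intro o'
    rcases o' with _ | k'
    · show eval b (pderiv (some (e l)) (tbx m w a)) = _
      rw [pd_tbx]
      simp
    · unfold sbt
      rw [map_sub, map_sub, map_sub, map_sub, pderiv_C_mul, pderiv_C_mul, pderiv_C, map_zero,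
        sub_zero, map_mul, map_mul, eval_C, eval_C, pd_tbx, pderiv_X]
      rw [if_neg (by simp), mul_zero, sub_zero]
      by_cases hk : k' = l
      · subst hk
        rw [Pi.single_eq_same, map_one, mul_one, if_pos rfl]
      · have hne : (some (e k') : Option (Fin m)) ≠ some (e l) := fun h =>
          hk (he (Option.some_injective _ h))
        have hne' : (some k' : Option (Fin n)) ≠ some l := fun h =>
          hk (Option.some_injective _ h)
        rw [Pi.single_eq_of_ne hne, map_zero, mul_zero, if_neg hne']
  unfold qst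
  rw [pderiv_C_mul, map_add, map_add, pderiv_C_mul, pderiv_C, add_zero, map_mul, map_add,
    map_mul, eval_C, eval_C, pd_aeval, map_sum, pd_tbx, if_neg (by simp), mul_zero, add_zero]
  rw [Finset.sum_eq_single (some l)]
  · rw [map_mul, eval_aevalσ, hS, if_pos rfl]
    field_simp
  · intro o' _ ho'
    rw [map_mul, hS, if_neg ho', mul_zero]
  · intro h
    exact absurd (Finset.mem_univ _) h

end Pool.GRW
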